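import Pool.Agent.Run7.h681.ER.Mean

/-!
# The chain to the left dies (adapted from `N276/BE/Die.lean`)
-/

set_option autoImplicit false

open MeasureTheory ProbabilityTheory Filter Topology Set
open scoped ENNReal

namespace Pool.Agent.Run7.h681.ER

open Pool.Agent.N276.ER

theorem T_zero (s : ℕ → Bool) : T 0 s = 0 := by
  unfold T
  exact Nat.le_zero.1 (Nat.sInf_le (show (0 : ℕ) ∈ {n | 0 ≤ fails s n} from Nat.zero_le _))

theorem U_zero (s : ℕ → Bool) : U 0 s = 0 := by
  unfold U
  rw [T_zero]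

theorem Y_congr (a : ℕ) (k : ℕ) (s s' : ℕ → ℕ → Bool) (h : ∀ j < k, s j = s' j) :
    Y a s k = Y a s' k := by
  induction k with
  | zero => rfl
  | succ k ih =>
    simp only [Y]
    rw [ih fun j hj => h j (by omega), h k (by omega)]

theorem Y_absorb (a : ℕ) (s : ℕ → ℕ → Bool) (k m : ℕ) (h : Y a s k = 0) :
    Y a s (k + m) = 0 := by
  induction m with
  | zero => exact h
  | succ m ih =>
    rw [← Nat.add_assoc]
    simp only [Y]
    rw [ih, U_zero]

theorem U_eq_zero (n : ℕ) (u : ℕ → Bool) (h : ∀ i < n, u i = false) : U n u = 0 := by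
  have h1 : fails u n = n := by
    unfold fails
    rw [Finset.filter_true_of_mem, Finset.card_range]
    intro i hi
    exact h i (Finset.mem_range.1 hi)
  have h2 : T n u ≤ n := Nat.sInf_le (show n ∈ {m | n ≤ fails u m} from h1.ge)
  unfold U
  omega

theorem prob_all (b : Bool) (n : ℕ) :
    ENNReal.ofReal (49 / 100) ^ n ≤ SS {u | ∀ i < n, u i = b} := by
  have hb : ∀ i, IsProbabilityMeasure (bern (pp i)) := fun i =>
    MeasAux.bern_prob (by linarith [(bb i).1]) (by linarith [(bb i).2])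
  have h1 : SS (Set.pi (Finset.range n : Set ℕ) fun _ => ({b} : Set Bool)) =
      ∏ i ∈ Finset.range n, bern (pp i) {b} :=
    Measure.infinitePi_pi (μ := fun i => bern (pp i)) (s := Finset.range n)
      (t := fun _ => ({b} : Set Bool)) (fun i _ => measurableSet_singleton b)
  have h2 : Set.pi (Finset.range n : Set ℕ) (fun _ => ({b} : Set Bool)) ⊆
      {u : ℕ → Bool | ∀ i < n, u i = b} := by
    intro u hu i hi
    simpa using hu i (by simpa using hi)
  refine le_trans ?_ (measure_mono h2)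
  rw [h1]
  calc ENNReal.ofReal (49 / 100) ^ n = ∏ _i ∈ Finset.range n, ENNReal.ofReal (49 / 100) := by
        rw [Finset.prod_const, Finset.card_range]
    _ ≤ ∏ i ∈ Finset.range n, bern (pp i) {b} := by
        refine Finset.prod_le_prod' fun i _ => ?_
        have h3 := bb i
        unfold bern
        rw [Measure.add_apply, Measure.smul_apply, Measure.smul_apply, smul_eq_mul, smul_eq_mul]
        cases b
        · simp
          exact ENNReal.ofReal_le_ofReal (by linarith [h3.2])
        · simp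
          exact ENNReal.ofReal_le_ofReal (by linarith [h3.1])

theorem prob_zero (n : ℕ) :
    ENNReal.ofReal (49 / 100) ^ n ≤ SS {u | U n (neg u) = 0} := by
  refine (prob_all true n).trans (measure_mono ?_)
  intro u hu
  exact U_eq_zero n (neg u) fun i hi => by
    show (!(u i)) = false
    rw [hu i hi]; rfl

theorem die : StmDie := by
  intro a
  obtain ⟨-, hUm0, hneg, -, -, hYm⟩ := meas
  have hUm : ∀ x, Measurable fun u : ℕ → Bool => U x (neg u) := fun x => (hUm0 x).comp hneg
  have hLL : IsProbabilityMeasure SS := prb.2.1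
  have hRR : IsProbabilityMeasure RR := prb.2.2.2
  have hM := markov
  have hL := lmean
  have hZ := prob_zero
  -- the mean
  have hmean : ∀ k, ∫⁻ s, (Y a s k : ℝ≥0∞) ∂(RR) ≤ a := by
    intro k
    induction k with
    | zero => simp [Y]
    | succ k ih =>
      have h1 := hM k (fun s => Y a s k) (fun n u => (U n (neg u) : ℝ≥0∞)) (hYm a k)
        (fun s s' h => Y_congr a k s s' h)
        (fun n => (measurable_of_countable (fun m : ℕ => (m : ℝ≥0∞))).comp (hUm n))
      calc ∫⁻ s, (Y a s (k + 1) : ℝ≥0∞) ∂(RR)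
          = ∫⁻ s, (U (Y a s k) (neg (s k)) : ℝ≥0∞) ∂(RR) := rfl
        _ = ∫⁻ s, ∫⁻ u, (U (Y a s k) (neg u) : ℝ≥0∞) ∂SS ∂(RR) := h1
        _ ≤ ∫⁻ s, (Y a s k : ℝ≥0∞) ∂(RR) := lintegral_mono fun s => hL _
        _ ≤ a := ih
  -- the events
  let E : ℕ → ℕ → Set (ℕ → ℕ → Bool) := fun K k => {s | 1 ≤ Y a s k ∧ Y a s k ≤ K}
  let D : ℕ → Set (ℕ → ℕ → Bool) := fun k => {s | 1 ≤ Y a s k ∧ Y a s (k + 1) = 0}
  have hEm : ∀ K k, MeasurableSet (E K k) := fun K k =>
    (hYm a k) (t := {m | 1 ≤ m ∧ m ≤ K}) trivial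
  have hDm : ∀ k, MeasurableSet (D k) := fun k =>
    ((hYm a k) (t := {m | 1 ≤ m}) trivial).inter ((hYm a (k + 1)) (t := {m | m = 0}) trivial)
  have hDdisj : Pairwise (Function.onFun Disjoint D) := by
    have key : ∀ i j, i < j → Disjoint (D i) (D j) := by
      intro i j hij
      refine Set.disjoint_left.2 fun s hi hj => ?_
      have h := Y_absorb a s (i + 1) (j - (i + 1)) hi.2
      rw [show i + 1 + (j - (i + 1)) = j by omega] at h
      have := hj.1
      omega
    intro i j hij
    rcases lt_or_gt_of_ne hij with h | h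
    · exact key i j h
    · exact (key j i h).symm
  have hsumD : ∑' k, RR (D k) ≤ 1 := by
    rw [← measure_iUnion hDdisj hDm]
    exact prob_le_one
  have hDE : ∀ K k, ENNReal.ofReal (49 / 100) ^ K * RR (E K k) ≤ RR (D k) := by
    intro K k
    have hgm : ∀ n : ℕ, Measurable (fun u : ℕ → Bool =>
        ({u : ℕ → Bool | 1 ≤ n ∧ U n (neg u) = 0}).indicator (fun _ => (1 : ℝ≥0∞)) u) := by
      intro n
      refine measurable_const.indicator ?_
      by_cases hn : 1 ≤ n
      · simp only [hn, true_and]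
        exact (hUm n) (t := {m | m = 0}) trivial
      · simp only [hn, false_and]
        exact MeasurableSet.empty
    have h1 := hM k (fun s => Y a s k)
      (fun n u => ({u : ℕ → Bool | 1 ≤ n ∧ U n (neg u) = 0}).indicator (fun _ => (1 : ℝ≥0∞)) u)
      (hYm a k) (fun s s' h => Y_congr a k s s' h) hgm
    have h2 : RR (D k) = ∫⁻ s, ({u : ℕ → Bool | 1 ≤ Y a s k ∧
        U (Y a s k) (neg u) = 0}).indicator (fun _ => (1 : ℝ≥0∞)) (s k) ∂(RR) := by
      rw [← lintegral_indicator_one (hDm k)]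
      refine lintegral_congr fun s => ?_
      by_cases hs : s ∈ D k
      · rw [Set.indicator_of_mem hs, Set.indicator_of_mem]
        · rfl
        · exact hs
      · rw [Set.indicator_of_notMem hs, Set.indicator_of_notMem]
        exact hs
    rw [h2, h1]
    have h3 : ENNReal.ofReal (49 / 100) ^ K * RR (E K k) =
        ∫⁻ s, (E K k).indicator (fun _ => ENNReal.ofReal (49 / 100) ^ K) s ∂(RR) := by
      rw [lintegral_indicator_const (hEm K k)]
    rw [h3]
    refine lintegral_mono fun s => ?_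
    by_cases hs : s ∈ E K k
    · rw [Set.indicator_of_mem hs]
      have hms : MeasurableSet {u : ℕ → Bool | 1 ≤ Y a s k ∧ U (Y a s k) (neg u) = 0} := by
        have h5 : {u : ℕ → Bool | 1 ≤ Y a s k ∧ U (Y a s k) (neg u) = 0} =
            {u | U (Y a s k) (neg u) = 0} := by
          ext u
          exact ⟨fun h => h.2, fun h => ⟨hs.1, h⟩⟩
        rw [h5]
        exact (hUm (Y a s k)) (t := {m | m = 0}) trivial
      have h4 : ∫⁻ u, ({u : ℕ → Bool | 1 ≤ Y a s k ∧
          U (Y a s k) (neg u) = 0}).indicator (fun _ => (1 : ℝ≥0∞)) u ∂SS =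
          SS {u | U (Y a s k) (neg u) = 0} := by
        have h5 : {u : ℕ → Bool | 1 ≤ Y a s k ∧ U (Y a s k) (neg u) = 0} =
            {u | U (Y a s k) (neg u) = 0} := by
          ext u
          exact ⟨fun h => h.2, fun h => ⟨hs.1, h⟩⟩
        rw [lintegral_indicator_const hms, one_mul, h5]
      show ENNReal.ofReal (49 / 100) ^ K ≤ _
      rw [h4]
      refine le_trans ?_ (hZ (Y a s k))
      exact pow_le_pow_right_of_le_one' (by
        rw [← ENNReal.ofReal_one]
        exact ENNReal.ofReal_le_ofReal (by norm_num)) hs.2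
    · rw [Set.indicator_of_notMem hs]
      exact zero_le
  have hE0 : ∀ K, Tendsto (fun k => RR (E K k)) atTop (𝓝 0) := by
    intro K
    refine ENNReal.tendsto_atTop_zero_of_tsum_ne_top ?_
    have hp : ENNReal.ofReal (49 / 100) ^ K ≠ 0 := by
      refine pow_ne_zero _ ?_
      simp
    have hp' : ENNReal.ofReal (49 / 100) ^ K ≠ ∞ := ENNReal.pow_ne_top ENNReal.ofReal_ne_top
    have h1 : ENNReal.ofReal (49 / 100) ^ K * ∑' k, RR (E K k) ≤ 1 := by
      rw [← ENNReal.tsum_mul_left]
      exact (ENNReal.tsum_le_tsum fun k => hDE K k).trans hsumD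
    intro htop
    rw [htop, ENNReal.mul_top hp] at h1
    exact absurd h1 (by simp)
  -- the conclusion
  let B : Set (ℕ → ℕ → Bool) := {s | ∀ k, 1 ≤ Y a s k}
  have hB : RR B = 0 := by
    have h1 : ∀ K : ℕ, RR B ≤ (a : ℝ≥0∞) / ((K : ℝ≥0∞) + 1) := by
      intro K
      have h2 : ∀ k, RR B ≤ RR (E K k) + (a : ℝ≥0∞) / ((K : ℝ≥0∞) + 1) := by
        intro k
        have h3 : B ⊆ E K k ∪ {s | (K : ℝ≥0∞) + 1 ≤ (Y a s k : ℝ≥0∞)} := by
          intro s hs
          by_cases h : Y a s k ≤ K
          · exact Or.inl ⟨hs k, h⟩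
          · right
            have : K + 1 ≤ Y a s k := by omega
            show (K : ℝ≥0∞) + 1 ≤ (Y a s k : ℝ≥0∞)
            exact_mod_cast this
        refine (measure_mono h3).trans ((measure_union_le _ _).trans ?_)
        gcongr
        have hYE : Measurable fun s : ℕ → ℕ → Bool => (Y a s k : ℝ≥0∞) :=
          (measurable_of_countable (fun m : ℕ => (m : ℝ≥0∞))).comp (hYm a k)
        refine (meas_ge_le_lintegral_div hYE.aemeasurable (by simp) (by
          exact ENNReal.add_ne_top.2 ⟨ENNReal.natCast_ne_top K, ENNReal.one_ne_top⟩)).trans ?_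
        exact ENNReal.div_le_div_right (hmean k) _
      have h4 : Tendsto (fun k => RR (E K k) + (a : ℝ≥0∞) / ((K : ℝ≥0∞) + 1)) atTop
          (𝓝 (0 + (a : ℝ≥0∞) / ((K : ℝ≥0∞) + 1))) := (hE0 K).add tendsto_const_nhds
      rw [zero_add] at h4
      exact ge_of_tendsto' h4 h2
    have h5 : Tendsto (fun K : ℕ => (a : ℝ≥0∞) / ((K : ℝ≥0∞) + 1)) atTop (𝓝 0) := by
      have h6 : Tendsto (fun K : ℕ => (K : ℝ≥0∞) + 1) atTop (𝓝 ∞) := by
        have : Tendsto (fun K : ℕ => ((K + 1 : ℕ) : ℝ≥0∞)) atTop (𝓝 ∞) :=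
          (tendsto_add_atTop_iff_nat 1).2 ENNReal.tendsto_nat_nhds_top
        simpa using this
      have h7 := ENNReal.Tendsto.const_div (a := (a : ℝ≥0∞)) h6 (Or.inr (ENNReal.natCast_ne_top a))
      simpa using h7
    exact le_antisymm (ge_of_tendsto' h5 h1) zero_le
  rw [ae_iff]
  refine measure_mono_null ?_ hB
  intro s hs
  simp only [Set.mem_ofPred_eq, not_exists] at hs
  intro k
  exact Nat.one_le_iff_ne_zero.2 (hs k)

end Pool.Agent.Run7.h681.ER
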