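import Pool.Agent.Run7.h681.ER.Kern
import Pool.Agent.Run7.h681.ER.Die

/-!
# The chain to the right survives with positive probability
-/

set_option autoImplicit false

open MeasureTheory ProbabilityTheory Filter Topology Set
open scoped ENNReal

namespace Pool.Agent.Run7.h681.ER

open Pool.Agent.N276.ER

/-- The stopped chain: `0` stands for a failure of the first step, `n + 1` for the value `n`. -/
noncomputable def Rc (a x₀ : ℕ) (s : ℕ → ℕ → Bool) : ℕ → ℕ
  | 0 => if a ≤ U 1 (s 0) then U 1 (s 0) + 1 else 0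
  | k + 1 => if Rc a x₀ s k ≤ x₀ then Rc a x₀ s k else U (Rc a x₀ s k - 1) (s (k + 1)) + 1

theorem Rc_meas (a x₀ k : ℕ) : Measurable fun s => Rc a x₀ s k := by
  have hU := meas.2.1
  induction k with
  | zero =>
    have h0 : Measurable fun s : ℕ → ℕ → Bool => U 1 (s 0) := (hU 1).comp (measurable_pi_apply 0)
    exact (Measurable.of_discrete (f := fun n : ℕ => if a ≤ n then n + 1 else 0)).comp h0
  | succ k ih =>
    refine MeasAux.meas_eval (fun s : ℕ → ℕ → Bool => Rc a x₀ s k)
      (fun n s => if n ≤ x₀ then n else U (n - 1) (s (k + 1)) + 1) ih fun n => ?_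
    by_cases h : n ≤ x₀
    · simp only [h, if_true]
      exact measurable_const
    · simp only [h, if_false]
      exact (((hU (n - 1)).comp (measurable_pi_apply (k + 1)))).add_const 1

theorem Rc_congr (a x₀ k : ℕ) (s s' : ℕ → ℕ → Bool) (h : ∀ j < k + 1, s j = s' j) :
    Rc a x₀ s k = Rc a x₀ s' k := by
  induction k with
  | zero => simp only [Rc]; rw [h 0 (by omega)]
  | succ k ih =>
    simp only [Rc]
    rw [ih fun j hj => h j (by omega), h (k + 1) (by omega)]

theorem V_pos (n : ℕ) : 0 < V n := by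
  unfold V
  have h : (0 : ℝ) ≤ n := Nat.cast_nonneg n
  have : 0 < Real.log ((n : ℝ) + 3) := Real.log_pos (by linarith)
  positivity

theorem V_anti {m n : ℕ} (h : m ≤ n) : V n ≤ V m := by
  unfold V
  have h0 : (0 : ℝ) ≤ m := Nat.cast_nonneg m
  have h1 : (m : ℝ) ≤ n := by exact_mod_cast h
  have h2 : 0 < Real.log ((m : ℝ) + 3) := Real.log_pos (by linarith)
  exact one_div_le_one_div_of_le h2 (Real.log_le_log (by linarith) (by linarith))

theorem V_strict {m n : ℕ} (h : m < n) : V n < V m := by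
  unfold V
  have h0 : (0 : ℝ) ≤ m := Nat.cast_nonneg m
  have h1 : (m : ℝ) < n := by exact_mod_cast h
  have h2 : 0 < Real.log ((m : ℝ) + 3) := Real.log_pos (by linarith)
  exact one_div_lt_one_div_of_lt h2 (Real.log_lt_log (by linarith) (by linarith))

/-- the test function -/
noncomputable def hh (x₀ : ℕ) : ℕ → ℝ≥0∞
  | 0 => 0
  | n + 1 => ENNReal.ofReal (V (max n x₀))

theorem U_one_ge (a : ℕ) (u : ℕ → Bool) (hu : ∃ n, 1 ≤ fails u n) (h : ∀ i < a, u i = true) :
    a ≤ U 1 u := by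
  have h1 : fails u a = 0 := by
    unfold fails
    rw [Finset.card_eq_zero, Finset.filter_eq_empty_iff]
    intro i hi
    rw [h i (Finset.mem_range.1 hi)]
    simp
  have h2 : a < T 1 u := (WaldAux.lt_T_iff hu a).2 (by omega)
  unfold U
  omega

theorem surv : StmSurv := by
  obtain ⟨x₁, hk⟩ := kern
  have hSS : IsProbabilityMeasure SS := prb.2.1
  have hRR : IsProbabilityMeasure RR := prb.2.2.2
  have hU := meas.2.1
  obtain ⟨x₀, hx₀⟩ : ∃ x₀, x₀ = max 1 x₁ := ⟨_, rfl⟩
  have hx1 : 1 ≤ x₀ := hx₀ ▸ le_max_left _ _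
  have hx2 : x₁ ≤ x₀ := hx₀ ▸ le_max_right _ _
  obtain ⟨a, ha⟩ : ∃ a, a = x₀ + 1 := ⟨_, rfl⟩
  -- the first step
  set A₁ : Set (ℕ → ℕ → Bool) := {s | a ≤ U 1 (s 0)} with hA₁
  have hA₁m : MeasurableSet A₁ := by
    have h0 : Measurable fun s : ℕ → ℕ → Bool => U 1 (s 0) := (hU 1).comp (measurable_pi_apply 0)
    exact measurableSet_le measurable_const h0
  have hA₁pos : 0 < RR A₁ := by
    have h1 : RR.map (fun s : ℕ → ℕ → Bool => s 0) = SS :=
      Measure.infinitePi_map_eval (fun _ : ℕ => SS) 0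
    have h2 : RR A₁ = SS {u | a ≤ U 1 u} := by
      rw [← h1, Measure.map_apply (measurable_pi_apply 0) (measurableSet_le measurable_const (hU 1))]
      rfl
    rw [h2]
    refine lt_of_lt_of_le ?_ (measure_mono_ae (s := {u | ∀ i < a, u i = true}) ?_)
    · refine lt_of_lt_of_le ?_ (prob_all true a)
      exact ENNReal.pow_pos (by norm_num) _
    · filter_upwards [inf] with u hu h3
      exact U_one_ge a u (fin_of_good hu 1) h3
  -- the supermartingale
  have hstep : ∀ k, ∫⁻ s, hh x₀ (Rc a x₀ s (k + 1)) ∂(RR) ≤ ∫⁻ s, hh x₀ (Rc a x₀ s k) ∂(RR) := by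
    intro k
    have h1 := markov (k + 1) (fun s => Rc a x₀ s k)
      (fun n u => hh x₀ (if n ≤ x₀ then n else U (n - 1) u + 1)) (Rc_meas a x₀ k)
      (fun s s' h => Rc_congr a x₀ k s s' h) (fun n => by
        refine (measurable_of_countable (hh x₀)).comp ?_
        by_cases h : n ≤ x₀
        · simp only [h, if_true]; exact measurable_const
        · simp only [h, if_false]; exact (hU (n - 1)).add_const 1)
    have h2 : ∫⁻ s, hh x₀ (Rc a x₀ s (k + 1)) ∂(RR) = ∫⁻ s, hh x₀ (if Rc a x₀ s k ≤ x₀ then Rc a x₀ s k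
        else U (Rc a x₀ s k - 1) (s (k + 1)) + 1) ∂(RR) := rfl
    rw [h2]
    refine h1.le.trans (lintegral_mono fun s => ?_)
    show ∫⁻ u, hh x₀ (if Rc a x₀ s k ≤ x₀ then Rc a x₀ s k else U (Rc a x₀ s k - 1) u + 1) ∂SS ≤
      hh x₀ (Rc a x₀ s k)
    generalize Rc a x₀ s k = n
    by_cases h : n ≤ x₀
    · simp only [h, if_true]
      rw [lintegral_const, measure_univ, mul_one]
    · simp only [h, if_false]
      obtain ⟨m, rfl⟩ : ∃ m, n = m + 1 := ⟨n - 1, by omega⟩
      have hm : x₀ ≤ m := by omega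
      show ∫⁻ u, ENNReal.ofReal (V (max (U (m + 1 - 1) u) x₀)) ∂SS ≤ ENNReal.ofReal (V (max m x₀))
      rw [max_eq_left hm, Nat.add_sub_cancel]
      have h3 := hk m (hx2.trans hm)
      have h4 : Integrable (fun u => V (U m u)) SS := by
        refine Integrable.of_bound (C := V 0) ?_ (Eventually.of_forall fun u => ?_)
        · exact ((measurable_of_countable V).comp (hU m)).aestronglyMeasurable
        · rw [Real.norm_eq_abs, abs_of_pos (V_pos _)]
          exact V_anti (Nat.zero_le _)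
      calc ∫⁻ u, ENNReal.ofReal (V (max (U m u) x₀)) ∂SS
          ≤ ∫⁻ u, ENNReal.ofReal (V (U m u)) ∂SS :=
            lintegral_mono fun u => ENNReal.ofReal_le_ofReal (V_anti (le_max_left _ _))
        _ = ENNReal.ofReal (∫ u, V (U m u) ∂SS) := by
            rw [ofReal_integral_eq_lintegral_ofReal h4 (Eventually.of_forall fun u => (V_pos _).le)]
        _ ≤ ENNReal.ofReal (V m) := ENNReal.ofReal_le_ofReal h3
  have hall : ∀ k, ∫⁻ s, hh x₀ (Rc a x₀ s k) ∂(RR) ≤ ENNReal.ofReal (V a) * RR A₁ := by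
    intro k
    induction k with
    | zero =>
      rw [← lintegral_indicator_const hA₁m]
      refine lintegral_mono fun s => ?_
      by_cases hs : s ∈ A₁
      · rw [indicator_of_mem hs]
        have hs' : a ≤ U 1 (s 0) := hs
        show hh x₀ (if a ≤ U 1 (s 0) then U 1 (s 0) + 1 else 0) ≤ _
        rw [if_pos hs']
        exact ENNReal.ofReal_le_ofReal (V_anti (hs'.trans (le_max_left _ _)))
      · have hs' : ¬ a ≤ U 1 (s 0) := hs
        show hh x₀ (if a ≤ U 1 (s 0) then U 1 (s 0) + 1 else 0) ≤ _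
        rw [if_neg hs']
        exact bot_le
    | succ k ih => exact (hstep k).trans ih
  -- the stopping events
  let B : ℕ → Set (ℕ → ℕ → Bool) := fun k => {s | 1 ≤ Rc a x₀ s k ∧ Rc a x₀ s k ≤ x₀}
  have hBmono : Monotone B := by
    refine monotone_nat_of_le_succ fun k s hs => ?_
    have h1 : Rc a x₀ s (k + 1) = Rc a x₀ s k := by
      simp only [Rc]
      rw [if_pos hs.2]
    show 1 ≤ Rc a x₀ s (k + 1) ∧ Rc a x₀ s (k + 1) ≤ x₀
    rw [h1]
    exact hs
  have hBle : ∀ k, ENNReal.ofReal (V x₀) * RR (B k) ≤ ENNReal.ofReal (V a) * RR A₁ := by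
    intro k
    have hBm : MeasurableSet (B k) := (Rc_meas a x₀ k) (t := {m | 1 ≤ m ∧ m ≤ x₀}) trivial
    refine le_trans ?_ (hall k)
    rw [← lintegral_indicator_const hBm]
    refine lintegral_mono fun s => ?_
    by_cases hs : s ∈ B k
    · rw [indicator_of_mem hs]
      obtain ⟨m, hm⟩ : ∃ m, Rc a x₀ s k = m + 1 := ⟨Rc a x₀ s k - 1, by have := hs.1; omega⟩
      show _ ≤ hh x₀ (Rc a x₀ s k)
      have h2 := hs.2
      rw [hm] at h2 ⊢
      show _ ≤ ENNReal.ofReal (V (max m x₀))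
      rw [max_eq_right (by omega)]
    · rw [indicator_of_notMem hs]
      exact bot_le
  have hBU : ENNReal.ofReal (V x₀) * RR (⋃ k, B k) ≤ ENNReal.ofReal (V a) * RR A₁ := by
    have h1 : Tendsto (fun k => RR (B k)) atTop (𝓝 (RR (⋃ k, B k))) :=
      tendsto_measure_iUnion_atTop hBmono
    have h2 := ENNReal.Tendsto.const_mul (a := ENNReal.ofReal (V x₀)) h1
      (Or.inr ENNReal.ofReal_ne_top)
    exact le_of_tendsto' h2 hBle
  have hlt : RR (⋃ k, B k) < RR A₁ := by
    by_contra hcon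
    push Not at hcon
    have h1 : ENNReal.ofReal (V x₀) * RR A₁ ≤ ENNReal.ofReal (V a) * RR A₁ :=
      (mul_le_mul_right hcon _).trans hBU
    have h2 : ENNReal.ofReal (V a) * RR A₁ < ENNReal.ofReal (V x₀) * RR A₁ := by
      rw [ENNReal.mul_lt_mul_iff_left hA₁pos.ne' (measure_ne_top _ _)]
      exact (ENNReal.ofReal_lt_ofReal_iff (V_pos _)).2 (V_strict (by omega))
    exact absurd h1 (not_le.2 h2)
  -- the conclusion
  have hsub : A₁ \ (⋃ k, B k) ⊆ {s | ∀ k, 1 ≤ Z s k} := by
    intro s hs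
    have hs1 : a ≤ U 1 (s 0) := hs.1
    have hs2 : ∀ k, ¬ (1 ≤ Rc a x₀ s k ∧ Rc a x₀ s k ≤ x₀) := fun k hk' =>
      hs.2 (mem_iUnion.2 ⟨k, hk'⟩)
    have key : ∀ k, Rc a x₀ s k = Z s (k + 1) + 1 ∧ x₀ < Rc a x₀ s k := by
      intro k
      induction k with
      | zero =>
        have h1 : Rc a x₀ s 0 = U 1 (s 0) + 1 := by
          simp only [Rc]; rw [if_pos hs1]
        rw [h1]
        exact ⟨rfl, by omega⟩
      | succ k ih =>
        have h1 : Rc a x₀ s (k + 1) = U (Z s (k + 1)) (s (k + 1)) + 1 := by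
          simp only [Rc]
          rw [if_neg (not_le.2 ih.2), ih.1, Nat.add_sub_cancel]
        refine ⟨h1, ?_⟩
        by_contra h2
        exact hs2 (k + 1) ⟨by omega, by omega⟩
    intro k
    cases k with
    | zero => exact le_rfl
    | succ k =>
      have := key k
      omega
  refine lt_of_lt_of_le ?_ (measure_mono hsub)
  refine lt_of_lt_of_le (tsub_pos_of_lt hlt) (le_measure_sdiff)

end Pool.Agent.Run7.h681.ER
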