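import Pool.Agent.N276.ER.Stm
import Pool.Agent.N276.ER.Meas
import Pool.Agent.N276.BE.Markov
import Pool.Agent.N276.BE.Transfer

/-!
# The environment, infinitely many arrows, transfer, push
-/

set_option autoImplicit false

open MeasureTheory ProbabilityTheory Filter Topology Set
open scoped ENNReal

namespace Pool.Agent.Run7.h681.ER

open Pool.Agent.N276.ER

theorem log102 : 4 ≤ Real.log 102 := by
  rw [Real.le_log_iff_exp_le (by norm_num)]
  have h := Real.exp_one_lt_d9
  have e : Real.exp 4 = Real.exp 1 ^ 4 := by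
    rw [← Real.exp_nat_mul]; norm_num
  rw [e]
  have h0 : (0:ℝ) < Real.exp 1 := Real.exp_pos 1
  have h1 : Real.exp 1 ^ 4 ≤ (2.7182818286:ℝ) ^ 4 := by
    gcongr
  refine h1.trans ?_
  norm_num

/-- the value at `100` -/
noncomputable def cc : ℝ := 1 / 2 + 2 / Real.log 102

theorem cc_le : cc ≤ 1 := by
  unfold cc
  have := log102
  have h : 2 / Real.log 102 ≤ 1 / 2 := by
    rw [div_le_iff₀ (by linarith)]; linarith
  linarith

theorem cc_ge : 1 / 2 ≤ cc := by
  unfold cc
  have := log102
  have : 0 ≤ 2 / Real.log 102 := by positivity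
  linarith

theorem A_lt {n : ℕ} (h : n < 100) : A n = (n : ℝ) / 100 * cc := by
  unfold A cc; rw [if_pos h]

theorem A_ge {n : ℕ} (h : 100 ≤ n) : A n = 1 / 2 + 2 / Real.log (n + 2) := by
  unfold A; rw [if_neg (by omega)]

theorem A_hund : A 100 = cc := by
  rw [A_ge le_rfl]; unfold cc; norm_num

theorem A_le' {n : ℕ} (h : n ≤ 100) : A n = (n : ℝ) / 100 * cc := by
  rcases h.lt_or_eq with h | h
  · exact A_lt h
  · subst h; rw [A_hund]; norm_num

theorem log_ge {n : ℕ} (h : 100 ≤ n) : 4 ≤ Real.log (n + 2) := by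
  refine log102.trans (Real.log_le_log (by norm_num) ?_)
  have : (100 : ℝ) ≤ n := by exact_mod_cast h
  linarith

theorem A_anti {m n : ℕ} (h : 100 ≤ m) (hmn : m ≤ n) : A n ≤ A m := by
  rw [A_ge h, A_ge (h.trans hmn)]
  have h1 := log_ge h
  have h2 : Real.log (m + 2) ≤ Real.log (n + 2) := by
    refine Real.log_le_log (by positivity) ?_
    have : (m : ℝ) ≤ n := by exact_mod_cast hmn
    linarith
  have : 2 / Real.log (n + 2) ≤ 2 / Real.log (m + 2) := by
    apply div_le_div_of_nonneg_left <;> linarith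
  linarith

theorem A_half {n : ℕ} (h : 100 ≤ n) : 1 / 2 ≤ A n := by
  rw [A_ge h]
  have := log_ge h
  have : 0 ≤ 2 / Real.log (n + 2) := by positivity
  linarith

theorem A_step {n : ℕ} (h : 100 ≤ n) : A n - A (n + 1) ≤ 1 / 100 := by
  rw [A_ge h, A_ge (by omega : 100 ≤ n + 1)]
  have h1 := log_ge h
  have h2 := log_ge (by omega : 100 ≤ n + 1)
  push_cast at h2 ⊢
  have hn : (100 : ℝ) ≤ n := by exact_mod_cast h
  have h3 : Real.log ((n : ℝ) + 1 + 2) - Real.log (n + 2) ≤ 1 / 102 := by
    rw [← Real.log_div (by positivity) (by positivity)]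
    have e : ((n : ℝ) + 1 + 2) / (n + 2) = 1 + 1 / (n + 2) := by
      field_simp; ring
    rw [e]
    have := Real.log_le_sub_one_of_pos (show (0:ℝ) < 1 + 1 / ((n:ℝ) + 2) by positivity)
    have h4 : 1 / ((n : ℝ) + 2) ≤ 1 / 102 := by
      apply one_div_le_one_div_of_le <;> linarith
    linarith
  set a := Real.log ((n : ℝ) + 2)
  set b := Real.log ((n : ℝ) + 1 + 2)
  have e : 1 / 2 + 2 / a - (1 / 2 + 2 / b) = 2 * (b - a) / (a * b) := by
    field_simp; ring
  rw [e, div_le_iff₀ (by positivity)]
  nlinarith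

theorem env : StmEnv := by
  have hc1 := cc_le
  have hc0 := cc_ge
  have hstep : ∀ n, |A (n + 1) - A n| ≤ 1 / 100 := by
    intro n
    rcases Nat.lt_or_ge n 100 with h | h
    · rw [A_lt h, A_le' (by omega : n + 1 ≤ 100)]
      have e : ((n + 1 : ℕ) : ℝ) / 100 * cc - (n : ℝ) / 100 * cc = cc / 100 := by
        push_cast; ring
      rw [e, abs_of_nonneg (by linarith)]
      linarith
    · rw [abs_sub_comm, abs_of_nonneg (by linarith [A_anti h (Nat.le_succ n)])]
      exact A_step h
  refine ⟨?_, ?_, hstep, fun n h => A_ge h, ?_, ?_⟩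
  · rw [A_lt (by norm_num)]; simp
  · intro n
    rcases Nat.lt_or_ge n 100 with h | h
    · rw [A_lt h]
      have h1 : (n : ℝ) ≤ 100 := by exact_mod_cast h.le
      have h0 : (0 : ℝ) ≤ n := Nat.cast_nonneg n
      constructor
      · positivity
      · have : (n : ℝ) / 100 ≤ 1 := by linarith
        nlinarith
    · refine ⟨by linarith [A_half h], ?_⟩
      have := A_anti le_rfl h
      rw [A_hund] at this
      linarith
  · have key1 : ∀ N, N ≤ 100 → ∑ i ∈ Finset.range N, |A (i + 1) - A i| = A N := by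
      intro N
      induction N with
      | zero => intro _; rw [A_lt (by norm_num)]; simp
      | succ N ih =>
        intro h
        rw [Finset.sum_range_succ, ih (by omega), A_le' (by omega : N ≤ 100), A_le' h]
        have e : ((N + 1 : ℕ) : ℝ) / 100 * cc - (N : ℝ) / 100 * cc = cc / 100 := by
          push_cast; ring
        rw [e, abs_of_nonneg (by linarith)]
        push_cast; ring
    have key2 : ∀ N, ∑ i ∈ Finset.range (100 + N), |A (i + 1) - A i| = 2 * cc - A (100 + N) := by
      intro N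
      induction N with
      | zero => rw [add_zero, key1 100 le_rfl, A_hund]; ring
      | succ N ih =>
        rw [← add_assoc, Finset.sum_range_succ, ih, abs_sub_comm,
          abs_of_nonneg (by linarith [A_anti (by omega : 100 ≤ 100 + N) (Nat.le_succ (100 + N))])]
        ring
    intro N
    rcases le_total N 100 with h | h
    · rw [key1 N h, A_le' h]
      have h1 : (N : ℝ) ≤ 100 := by exact_mod_cast h
      have h0 : (0 : ℝ) ≤ N := Nat.cast_nonneg N
      have : (N : ℝ) / 100 ≤ 1 := by linarith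
      nlinarith
    · obtain ⟨M, rfl⟩ := Nat.exists_eq_add_of_le h
      rw [key2 M]
      have := A_half (by omega : 100 ≤ 100 + M)
      linarith
  · intro i
    have h := abs_le.1 (hstep i)
    unfold pp
    constructor <;> linarith [h.1, h.2]

theorem markov : StmMarkov := by
  intro k G g hG hl hg
  have hp : IsProbabilityMeasure SS := (prob env).2.1
  exact Pool.Agent.N276.BE.markov SS hp k G g hG hl hg

theorem push : StmPush := by
  intro φ hφ
  have hp : IsProbabilityMeasure SS := (prob env).2.1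
  exact Measure.map_infinitePi_infinitePi_of_inj (P := fun _ : ℤ => SS) hφ

theorem dieQ (h : StmDie) : StmDieQ := by
  have hp : IsProbabilityMeasure SS := (prob env).2.1
  have hpush := push (fun k => -((k : ℤ) + 1)) (fun a b hab => by
    simp only [neg_inj, add_left_inj, Nat.cast_inj] at hab; exact hab)
  rw [StmDieQ, ae_all_iff]
  intro a
  have h1 := h a
  rw [← hpush] at h1
  have hm : Measurable (fun (ω : ℤ → ℕ → Bool) (k : ℕ) => ω (-((k : ℤ) + 1))) :=
    measurable_pi_lambda _ fun k => measurable_pi_apply _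
  exact ae_of_ae_map hm.aemeasurable h1

theorem bern_le {q : ℝ} (h0 : 49 / 100 ≤ q) (h1 : q ≤ 51 / 100) (b : Bool) :
    bern q {b} ≤ ENNReal.ofReal (51 / 100) := by
  unfold bern
  rw [Measure.add_apply, Measure.smul_apply, Measure.smul_apply, smul_eq_mul, smul_eq_mul]
  cases b
  · simp
    exact ENNReal.ofReal_le_ofReal (by linarith)
  · simp
    exact ENNReal.ofReal_le_ofReal (by linarith)

theorem inf : StmInf := by
  have hp : IsProbabilityMeasure SS := (prob env).2.1
  have hpr : ∀ i, IsProbabilityMeasure (bern (pp i)) := fun i =>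
    MeasAux.bern_prob (by linarith [(env.2.2.2.2.2 i).1]) (by linarith [(env.2.2.2.2.2 i).2])
  have key : ∀ (b : Bool) (n : ℕ), ∀ᵐ s ∂SS, ∃ i, n ≤ i ∧ s i = b := by
    intro b n
    rw [ae_iff]
    have hsub : ∀ m : ℕ, SS {s : ℕ → Bool | ¬ ∃ i, n ≤ i ∧ s i = b} ≤
        ENNReal.ofReal (51 / 100) ^ m := by
      intro m
      have h1 : {s : ℕ → Bool | ¬ ∃ i, n ≤ i ∧ s i = b} ⊆
          Set.pi (Finset.Ico n (n + m) : Finset ℕ) (fun _ => {!b}) := by
        intro s hs i hi
        have hi' := Finset.mem_Ico.1 (Finset.mem_coe.1 hi)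
        have h2 : s i ≠ b := fun e => hs ⟨i, hi'.1, e⟩
        show s i = !b
        cases hsi : s i <;> cases b <;> simp_all
      refine (measure_mono h1).trans ?_
      have h3 : SS (Set.pi (Finset.Ico n (n + m) : Finset ℕ) (fun _ => {!b})) =
          ∏ i ∈ Finset.Ico n (n + m), bern (pp i) {!b} :=
        Measure.infinitePi_pi (μ := fun i => bern (pp i)) (fun i _ => measurableSet_singleton _)
      rw [h3]
      refine (Finset.prod_le_prod' (g := fun _ => ENNReal.ofReal (51 / 100)) fun i _ =>
        bern_le (env.2.2.2.2.2 i).1 (env.2.2.2.2.2 i).2 _).trans ?_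
      rw [Finset.prod_const]
      simp
    have hlim : Tendsto (fun m : ℕ => ENNReal.ofReal (51 / 100) ^ m) atTop (𝓝 0) := by
      apply ENNReal.tendsto_pow_atTop_nhds_zero_of_lt_one
      rw [ENNReal.ofReal_lt_one]; norm_num
    exact le_antisymm (ge_of_tendsto' hlim hsub) (by simp)
  have h1 : ∀ᵐ s ∂SS, ∀ n, ∃ i, n ≤ i ∧ s i = true := ae_all_iff.2 (key true)
  have h2 : ∀ᵐ s ∂SS, ∀ n, ∃ i, n ≤ i ∧ s i = false := ae_all_iff.2 (key false)
  filter_upwards [h1, h2] with s a b
  exact ⟨a, b⟩

end Pool.Agent.Run7.h681.ER
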