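import Pool.Agent.Run7.h681.ER.Mean
import Pool.Agent.N276.BE.QTail

/-!
# The tail of `U x - x` (Hoeffding's inequality from `N276/BE/QTail.lean`)
-/

set_option autoImplicit false

open MeasureTheory ProbabilityTheory Filter Topology Set
open scoped ENNReal

namespace Pool.Agent.Run7.h681.ER

open Pool.Agent.N276.ER Pool.Agent.N276.BE.QTailAux

theorem sum_pp (n : ℕ) : ∑ i ∈ Finset.range n, pp i = n / 2 + A n := by
  have h := two_A n
  rw [Finset.sum_sub_distrib, ← Finset.mul_sum] at h
  simp only [Finset.sum_const, Finset.card_range, nsmul_eq_mul, mul_one] at h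
  linarith

theorem fin_of_good {s : ℕ → Bool} (hs : Good s) (x : ℕ) : ∃ n, x ≤ fails s n := by
  induction x with
  | zero => exact ⟨0, Nat.zero_le _⟩
  | succ x ih =>
    obtain ⟨n, hn⟩ := ih
    obtain ⟨i, hi, hsi⟩ := hs.2 n
    refine ⟨i + 1, ?_⟩
    rw [WaldAux.fails_succ', WaldAux.fN, if_pos hsi]
    have := WaldAux.fails_mono s hi
    omega

theorem exp_le_exp_div {a b c d : ℝ} (hb : 0 < b) (hd : 0 < d) (h : c * b ≤ a * d) :
    Real.exp (-a / b) ≤ Real.exp (-c / d) := by
  apply Real.exp_le_exp.2
  rw [neg_div, neg_div, neg_le_neg_iff, div_le_div_iff₀ hd hb]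
  exact h

theorem tail : StmTail := by
  intro x t ht
  have hp : IsProbabilityMeasure SS := prb.2.1
  have hq' : ∀ i, 0 ≤ pp i ∧ pp i ≤ 1 := fun i => by
    have := bb i; constructor <;> linarith [this.1, this.2]
  have ht' : (2 : ℝ) ≤ t := by exact_mod_cast ht
  have hx0 : (0 : ℝ) ≤ x := Nat.cast_nonneg x
  set e := Real.exp (-(t : ℝ) ^ 2 / (8 * (2 * x + t))) with he
  have hA := fun n => env.2.1 n
  -- upper tail
  have hup : SS.real {s | fails s (2 * x + t - 1) < x} ≤ e := by
    have h1 := hoef hq' (fun b => if b = true then (1 : ℝ) else 0) 0 (by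
      intro b
      cases b <;> simp) (2 * x + t - 1) (u := ((t : ℝ) - 1) / 2) (by linarith)
    have hn : ((2 * x + t - 1 : ℕ) : ℝ) = 2 * x + t - 1 := by
      rw [Nat.cast_sub (by omega)]; push_cast; ring
    refine (measureReal_mono ?_).trans (h1.trans ?_)
    · intro s hs
      have hs' : (fails s (2 * x + t - 1) : ℝ) + 1 ≤ x := by exact_mod_cast hs
      show ((t : ℝ) - 1) / 2 ≤ ∑ i ∈ Finset.range (2 * x + t - 1),
        ((if s i = true then (1 : ℝ) else 0) - (pp i * (if true = true then (1 : ℝ) else 0) +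
          (1 - pp i) * (if false = true then (1 : ℝ) else 0)))
      simp only [if_true, Bool.false_eq_true, if_false, mul_one, mul_zero, add_zero]
      rw [Finset.sum_sub_distrib, sum_succ, sum_pp, hn]
      linarith [(hA (2 * x + t - 1)).2]
    · rw [hn, he]
      have e1 : -(((t : ℝ) - 1) / 2) ^ 2 / (2 * (2 * x + t - 1) * (1 / 4)) =
          -(((t : ℝ) - 1) ^ 2) / (2 * (2 * x + t - 1)) := by
        have : (2 * (x : ℝ) + t - 1) ≠ 0 := by linarith
        field_simp
        ring
      rw [e1]
      apply exp_le_exp_div (by linarith) (by linarith)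
      nlinarith [sq_nonneg ((t : ℝ) - 2), mul_nonneg hx0 (sq_nonneg (t : ℝ)),
        mul_nonneg hx0 (by linarith : (0 : ℝ) ≤ t - 2)]
  -- lower tail
  have hlow : t ≤ x → SS.real {s | x ≤ fails s (2 * x - t)} ≤ e := by
    intro htx
    have htx' : (t : ℝ) ≤ x := by exact_mod_cast htx
    have h1 := hoef hq' (fun b => if b = true then (0 : ℝ) else 1) 0 (by
      intro b
      cases b <;> simp) (2 * x - t) (u := (t : ℝ) / 2) (by linarith)
    have hn : ((2 * x - t : ℕ) : ℝ) = 2 * x - t := by
      rw [Nat.cast_sub (by omega)]; push_cast; ring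
    refine (measureReal_mono ?_).trans (h1.trans ?_)
    · intro s hs
      have hs' : (x : ℝ) ≤ (fails s (2 * x - t) : ℝ) := by exact_mod_cast hs
      show (t : ℝ) / 2 ≤ ∑ i ∈ Finset.range (2 * x - t),
        ((if s i = true then (0 : ℝ) else 1) - (pp i * (if true = true then (0 : ℝ) else 1) +
          (1 - pp i) * (if false = true then (0 : ℝ) else 1)))
      simp only [if_true, Bool.false_eq_true, if_false, mul_one, mul_zero, zero_add]
      have e2 : ∀ i, (if s i = true then (0 : ℝ) else 1) - (1 - pp i) =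
          pp i - (if s i = true then (1 : ℝ) else 0) := by
        intro i
        split_ifs <;> ring
      simp only [e2]
      rw [Finset.sum_sub_distrib, sum_succ, sum_pp, hn]
      linarith [(hA (2 * x - t)).1]
    · rw [hn, he]
      have e1 : -((t : ℝ) / 2) ^ 2 / (2 * (2 * x - t) * (1 / 4)) =
          -((t : ℝ) ^ 2) / (2 * (2 * x - t)) := by
        have : (2 * (x : ℝ) - t) ≠ 0 := by linarith
        field_simp
        ring
      rw [e1]
      apply exp_le_exp_div (by linarith) (by linarith)
      nlinarith [mul_nonneg hx0 (sq_nonneg (t : ℝ)), pow_pos (by linarith : (0 : ℝ) < t) 3]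
  -- the union
  have hsub : {s : ℕ → Bool | (t : ℝ) ≤ |(U x s : ℝ) - x|} ≤ᵐ[SS]
      ({s | fails s (2 * x + t - 1) < x} ∪ {s | t ≤ x ∧ x ≤ fails s (2 * x - t)} : Set (ℕ → Bool)) := by
    filter_upwards [inf] with s hg hs
    have hf := fin_of_good hg x
    have h1 := WaldAux.fails_T hf
    have h2 := WaldAux.fails_le s (T x s)
    have hxT : x ≤ T x s := by omega
    have hU : U x s = T x s - x := rfl
    have hs' : (t : ℝ) ≤ |(U x s : ℝ) - x| := hs
    rcases le_abs.1 hs' with h | h
    · left
      have h3 : x + t ≤ U x s := by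
        have : (x : ℝ) + t ≤ U x s := by linarith
        exact_mod_cast this
      exact (WaldAux.lt_T_iff hf _).1 (by omega)
    · right
      have h3 : U x s + t ≤ x := by
        have : (U x s : ℝ) + t ≤ x := by linarith
        exact_mod_cast this
      refine ⟨by omega, ?_⟩
      calc x = fails s (T x s) := h1.symm
        _ ≤ fails s (2 * x - t) := WaldAux.fails_mono s (by omega)
  have h3 : SS.real {s : ℕ → Bool | (t : ℝ) ≤ |(U x s : ℝ) - x|} ≤
      SS.real ({s | fails s (2 * x + t - 1) < x} ∪ {s | t ≤ x ∧ x ≤ fails s (2 * x - t)}) :=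
    ENNReal.toReal_mono (measure_ne_top _ _) (measure_mono_ae hsub)
  refine h3.trans ((measureReal_union_le _ _).trans ?_)
  have h4 : SS.real {s : ℕ → Bool | t ≤ x ∧ x ≤ fails s (2 * x - t)} ≤ e := by
    by_cases htx : t ≤ x
    · refine (measureReal_mono ?_).trans (hlow htx)
      intro s hs
      exact hs.2
    · have : {s : ℕ → Bool | t ≤ x ∧ x ≤ fails s (2 * x - t)} = ∅ := by
        ext s
        simp [htx]
      rw [this, measureReal_empty]
      exact (Real.exp_pos _).le
  linarith

end Pool.Agent.Run7.h681.ER
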