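import Pool.Agent.Run7.h681.ER.Lyap2
import Pool.Agent.Run7.h681.ER.Tail
import Pool.Agent.N276.ER.Mom2

/-!
# The Lyapunov function for the chain `Z`
-/

set_option autoImplicit false

open MeasureTheory ProbabilityTheory Filter Topology Set
open scoped ENNReal

namespace Pool.Agent.Run7.h681.ER

open Pool.Agent.N276.ER

theorem mom2' : StmMom2 := mom2 prb env inf wald' tail

theorem mean_low {x : ℕ} (hx : 1000 ≤ x) :
    1 + 3 / Real.log x ≤ ∫ s, ((U x s : ℝ) - x) ∂SS := by
  have hp : IsProbabilityMeasure SS := prb.2.1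
  have hxR : (1000 : ℝ) ≤ x := by exact_mod_cast hx
  set B : Set (ℕ → Bool) := {s | ((2 * x : ℕ) : ℝ) ≤ |(U x s : ℝ) - x|} with hB
  have hBm : MeasurableSet B := by
    refine measurableSet_le measurable_const (continuous_abs.measurable.comp ?_)
    exact (((measurable_of_countable (fun n : ℕ => (n : ℝ))).comp (meas.2.1 x))).sub_const _
  have hPB : SS.real B ≤ 1 / 16 := by
    refine (tail x (2 * x) (by omega)).trans ?_
    have e : -((2 * x : ℕ) : ℝ) ^ 2 / (8 * (2 * x + (2 * x : ℕ))) = -((x : ℝ) / 8) := by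
      push_cast
      field_simp
      ring
    rw [e, Real.exp_neg]
    have h1 : (32 : ℝ) ≤ Real.exp ((x : ℝ) / 8) := by
      have := Real.add_one_le_exp ((x : ℝ) / 8)
      linarith
    rw [inv_eq_one_div, mul_one_div, div_le_div_iff₀ (Real.exp_pos _) (by norm_num)]
    linarith
  rw [mean_eq]
  set c : ℝ := 4 / Real.log (4 * x + 2) with hc
  have hlog4 : 0 < Real.log (4 * x + 2) := Real.log_pos (by linarith)
  have hc0 : 0 < c := by positivity
  have hle : ∀ᵐ s ∂SS, 1 + c * indicator Bᶜ (fun _ => (1 : ℝ)) s ≤ 2 * A (T x s) := by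
    filter_upwards [T_ge x] with s hs
    have h100 : 100 ≤ T x s := by omega
    by_cases hsB : s ∈ B
    · rw [indicator_of_notMem (by simpa using hsB)]
      have := A_half h100
      linarith
    · rw [indicator_of_mem (by simpa using hsB), A_ge h100]
      have h1 : |(U x s : ℝ) - x| < ((2 * x : ℕ) : ℝ) := not_le.1 hsB
      have h2 := (abs_lt.1 h1).2
      have h3 : (U x s : ℝ) = T x s - x := by
        show (((T x s - x : ℕ)) : ℝ) = _
        rw [Nat.cast_sub hs]
      rw [h3] at h2
      push_cast at h2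
      have h4 := log_ge h100
      have h5 : Real.log ((T x s : ℕ) + 2) ≤ Real.log (4 * x + 2) :=
        Real.log_le_log (by positivity) (by linarith)
      have h6 : c ≤ 4 / Real.log ((T x s : ℕ) + 2) :=
        div_le_div_of_nonneg_left (by norm_num) (by linarith) h5
      have e : 2 * (1 / 2 + 2 / Real.log ((T x s : ℕ) + 2)) = 1 + 4 / Real.log ((T x s : ℕ) + 2) := by
        ring
      rw [e]
      linarith
  have hIi : Integrable (indicator Bᶜ (fun _ => (1 : ℝ))) SS :=
    (integrable_const (1 : ℝ)).indicator hBm.compl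
  have hint : Integrable (fun s => 1 + c * indicator Bᶜ (fun _ => (1 : ℝ)) s) SS :=
    (integrable_const _).add (hIi.const_mul _)
  refine le_trans ?_ (integral_mono_ae hint (int_A x) hle)
  have e1 : ∫ s, (1 + c * indicator Bᶜ (fun _ => (1 : ℝ)) s) ∂SS = 1 + c * SS.real Bᶜ := by
    have h1 : ∫ s, (1 + c * indicator Bᶜ (fun _ => (1 : ℝ)) s) ∂SS =
        ∫ _s, (1 : ℝ) ∂SS + ∫ s, c * indicator Bᶜ (fun _ => (1 : ℝ)) s ∂SS :=
      integral_add (integrable_const _) (hIi.const_mul _)
    rw [h1, integral_const_mul, integral_indicator_const _ hBm.compl]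
    simp
  rw [e1, measureReal_compl hBm]
  simp only [probReal_univ]
  have hlogx : 0 < Real.log x := Real.log_pos (by linarith)
  have h5 : Real.log (4 * x + 2) ≤ 5 / 4 * Real.log x := by
    have h6 : Real.log (4 * x + 2) ≤ Real.log (5 * x) := Real.log_le_log (by positivity) (by linarith)
    rw [Real.log_mul (by norm_num) (by positivity)] at h6
    have h7 : 4 * Real.log 5 ≤ Real.log x := by
      have h8 : 4 * Real.log 5 = Real.log (5 ^ 4) := by
        rw [Real.log_pow]; norm_num
      rw [h8]
      exact Real.log_le_log (by norm_num) (by norm_num; linarith)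
    linarith
  have h6 : 3 / Real.log x ≤ c * (15 / 16) := by
    rw [hc, div_mul_eq_mul_div, div_le_div_iff₀ hlogx hlog4]
    linarith
  have h7 : c * (15 / 16) ≤ c * (1 - SS.real B) := mul_le_mul_of_nonneg_left (by linarith) hc0.le
  linarith

theorem kern : StmKern := by
  obtain ⟨x₁, h⟩ := lyap
  refine ⟨max x₁ 1000, fun x hx => ?_⟩
  have hp : IsProbabilityMeasure SS := prb.2.1
  have hx1 : x₁ ≤ x := le_trans (le_max_left _ _) hx
  have hx2 : 1000 ≤ x := le_trans (le_max_right _ _) hx
  have hUm : Measurable fun s : ℕ → Bool => (U x s : ℝ) - x :=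
    (((measurable_of_countable (fun n : ℕ => (n : ℝ))).comp (meas.2.1 x))).sub_const _
  obtain ⟨i1, i2, -⟩ := wald' pp bb x
  have iD2 : Integrable (fun s => ((U x s : ℝ) - x) ^ 2) SS := by
    have h1 : (fun s => ((U x s : ℝ) - x) ^ 2) =
        fun s => (U x s : ℝ) ^ 2 + ((-(2 * x)) * (U x s : ℝ) + (x : ℝ) ^ 2) := by
      funext s
      ring
    rw [h1]
    exact i2.add ((i1.const_mul (-(2 * (x : ℝ)))).add (integrable_const _))
  have hm2 := (abs_le.1 (mom2' x)).2
  have h1 := h x hx1 SS (fun s => (U x s : ℝ) - x) hp hUm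
    (fun s => by have : (0 : ℝ) ≤ U x s := Nat.cast_nonneg _; linarith) iD2 (mean_low hx2)
    (by linarith) (fun t ht => tail x t ht)
  have e : ∀ s : ℕ → Bool, V (U x s) = 1 / Real.log (x + ((U x s : ℝ) - x) + 3) := by
    intro s
    unfold V
    congr 2
    ring
  simp only [e]
  unfold V
  exact h1

end Pool.Agent.Run7.h681.ER
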