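import Pool.Agent.N276.ER.Path
import Pool.Agent.N276.ER.Wald
import Pool.Agent.N276.BE.PathUp

/-!
# Paths
-/

set_option autoImplicit false

open Filter Topology

namespace Pool.Agent.Run7.h681.ER

open Pool.Agent.N276.ER

theorem good_neg {s : ℕ → Bool} (h : Good s) : Good (neg s) := by
  constructor
  · intro n
    obtain ⟨i, hi, hs⟩ := h.2 n
    exact ⟨i, hi, by show (!(s i)) = true; rw [hs]; rfl⟩
  · intro n
    obtain ⟨i, hi, hs⟩ := h.1 n
    exact ⟨i, hi, by show (!(s i)) = false; rw [hs]; rfl⟩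

theorem fin_good {s : ℕ → Bool} (hs : Good s) (x : ℕ) : ∃ n, x ≤ fails s n := by
  induction x with
  | zero => exact ⟨0, Nat.zero_le _⟩
  | succ x ih =>
    obtain ⟨n, hn⟩ := ih
    obtain ⟨i, hi, hsi⟩ := hs.2 n
    refine ⟨i + 1, ?_⟩
    rw [WaldAux.fails_succ', WaldAux.fN, if_pos hsi]
    have := WaldAux.fails_mono s hi
    omega

theorem T_mono {s : ℕ → Bool} (hs : Good s) {x y : ℕ} (h : x ≤ y) : T x s ≤ T y s := by
  have h1 := WaldAux.fails_T (fin_good hs y)
  exact Nat.sInf_le (show x ≤ fails s (T y s) by omega)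

theorem succ_mono (s : ℕ → Bool) {m n : ℕ} (h : m ≤ n) : m - fails s m ≤ n - fails s n := by
  induction n, h using Nat.le_induction with
  | base => exact le_rfl
  | succ n hn ih =>
    rw [WaldAux.fails_succ']
    have h1 := WaldAux.fN_le n s
    have h2 := WaldAux.fails_le s n
    omega

theorem U_mono {s : ℕ → Bool} (hs : Good s) {x y : ℕ} (h : x ≤ y) : U x s ≤ U y s := by
  have h1 := WaldAux.fails_T (fin_good hs x)
  have h2 := WaldAux.fails_T (fin_good hs y)
  have h3 := succ_mono s (T_mono hs h)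
  unfold U
  omega

theorem step (ω : ℤ → ℕ → Bool) (t : ℕ) : X ω (t + 1) = X ω t + 1 ∨ X ω (t + 1) = X ω t - 1 := by
  rw [X_succ]
  split_ifs
  · left; rfl
  · right; rfl

theorem X_le (ω : ℤ → ℕ → Bool) (t : ℕ) : X ω t ≤ t := by
  induction t with
  | zero => rw [X_zero]; simp
  | succ t ih =>
    rcases step ω t with h | h <;> rw [h] <;> push_cast <;> omega

theorem downs_far (ω : ℤ → ℕ → Bool) (y : ℤ) (t : ℕ) (h : (t : ℤ) ≤ y) : downs ω y t = 0 := by
  induction t with
  | zero => simp [downs]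
  | succ t ih =>
    rw [downs_succ, ih (by push_cast at h; omega), if_neg, add_zero]
    rintro ⟨h1, -⟩
    have := X_le ω t
    push_cast at h
    omega

theorem right : StmRight := by
  intro ω hω m hm t₀ h0 hb hZ
  by_contra hcon
  push Not at hcon
  obtain ⟨t₁, ht₁, hlt⟩ := hcon
  -- the first return below `m`
  classical
  have hex : ∃ t, t₀ ≤ t ∧ X ω t < m := ⟨t₁, ht₁, hlt⟩
  obtain ⟨ht0, htm⟩ := Nat.find_spec hex
  have hmin : ∀ r, r < Nat.find hex → t₀ ≤ r → (m : ℤ) ≤ X ω r := by
    intro r hr h1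
    by_contra h2
    exact Nat.find_min hex hr ⟨h1, not_le.1 h2⟩
  set t := Nat.find hex with ht
  have htne : t₀ ≠ t := by
    intro e
    rw [← e, h0] at htm
    exact lt_irrefl _ htm
  obtain ⟨r, hr⟩ : ∃ r, t = r + 1 := ⟨t - 1, by omega⟩
  -- `downs m t = 1`
  have hd0 : ∀ u ≤ r, downs ω m u = 0 := by
    intro u
    induction u with
    | zero => intro _; simp [downs]
    | succ u ih =>
      intro hu
      rw [downs_succ, ih (by omega), if_neg, add_zero]
      rintro ⟨h1, h2⟩
      rcases Nat.lt_or_ge u t₀ with h3 | h3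
      · have := hb u h3
        omega
      · have := hmin (u + 1) (by omega) (by omega)
        omega
  have hXr : (m : ℤ) ≤ X ω r := hmin r (by omega) (by omega)
  have hXt : X ω t < m := htm
  have hXr' : X ω r = m := by
    rw [hr] at hXt
    rcases step ω r with h | h <;> omega
  have hXt' : X ω (r + 1) = m - 1 := by
    rw [hr] at hXt
    rcases step ω r with h | h <;> omega
  have hd1 : downs ω m t = 1 := by
    rw [hr, downs_succ, hd0 r le_rfl, if_pos ⟨hXr', hXt'⟩]
  -- the chain
  have key : ∀ k : ℕ, Z (fun k => ω ((m : ℤ) + k)) k ≤ downs ω ((m : ℤ) + k) t := by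
    intro k
    induction k with
    | zero => simp [Z, hd1]
    | succ k ih =>
      have hc := cross ω ((m : ℤ) + k) t
      rw [if_neg (by omega), if_neg (by rw [hr, hXt']; omega), add_zero, add_zero] at hc
      have hc' : ups ω ((m : ℤ) + k) t = downs ω ((m : ℤ) + k + 1) t := by exact_mod_cast hc
      have hv := vis_eq ω ((m : ℤ) + k) t
      have hde := downs_eq ω ((m : ℤ) + k) t
      have hT : T (downs ω ((m : ℤ) + k) t) (ω ((m : ℤ) + k)) ≤ vis ω ((m : ℤ) + k) t :=
        Nat.sInf_le (show downs ω ((m : ℤ) + k) t ≤ fails (ω ((m : ℤ) + k)) (vis ω ((m : ℤ) + k) t)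
          from hde.le)
      have hU := U_mono (hω ((m : ℤ) + k)) ih
      have hU2 : U (downs ω ((m : ℤ) + k) t) (ω ((m : ℤ) + k)) =
        T (downs ω ((m : ℤ) + k) t) (ω ((m : ℤ) + k)) - downs ω ((m : ℤ) + k) t := rfl
      show U (Z (fun k => ω ((m : ℤ) + k)) k) (ω ((m : ℤ) + k)) ≤ _
      push_cast
      rw [← add_assoc, ← hc']
      omega
  have h1 := hZ t
  have h2 := key t
  rw [downs_far ω ((m : ℤ) + t) t (by omega)] at h2
  omega

theorem left : StmLeft := by
  intro ω hω hlim
  have hN : ∀ b : ℤ, ∃ N, ∀ n, N ≤ n → X ω n < b := by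
    intro b
    obtain ⟨N, hN⟩ := (tendsto_atTop_atBot.1 hlim) (b - 1)
    exact ⟨N, fun n hn => by have := hN n hn; omega⟩
  choose N hN using hN
  -- the number of steps to the left is constant from `N y` on
  have hconst : ∀ (y : ℤ) (n : ℕ), N y ≤ n → downs ω y n = downs ω y (N y) := by
    intro y n hn
    induction n, hn using Nat.le_induction with
    | base => rfl
    | succ n hn ih =>
      rw [downs_succ, ih, if_neg, add_zero]
      rintro ⟨h1, -⟩
      have := hN y n hn
      omega
  let D : ℕ → ℕ := fun k => downs ω (-(k : ℤ)) (N (-(k : ℤ)))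
  have hcr : ∀ k : ℕ, 1 ≤ D k ∧ D (k + 1) ≤ U (D k) (neg (ω (-((k : ℤ) + 1)))) := by
    intro k
    set n := max (N (-(k : ℤ))) (N (-((k : ℤ) + 1))) with hn
    have h1 : downs ω (-(k : ℤ)) n = D k := hconst _ _ (le_max_left _ _)
    have h2 : downs ω (-((k : ℤ) + 1)) n = D (k + 1) := by
      have e : (-(((k + 1 : ℕ) : ℤ))) = -((k : ℤ) + 1) := by push_cast; ring
      show _ = downs ω (-(((k + 1 : ℕ) : ℤ))) (N (-(((k + 1 : ℕ) : ℤ))))
      rw [e]
      exact hconst _ _ (le_max_right _ _)
    have hX : X ω n < -((k : ℤ) + 1) := hN _ n (le_max_right _ _)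
    have hc := cross ω (-((k : ℤ) + 1)) n
    rw [if_pos (by omega), if_neg (by omega), add_zero] at hc
    have e : -((k : ℤ) + 1) + 1 = -(k : ℤ) := by ring
    rw [e, h1] at hc
    have hc' : ups ω (-((k : ℤ) + 1)) n + 1 = D k := by exact_mod_cast hc
    refine ⟨by omega, ?_⟩
    have hv := vis_eq ω (-((k : ℤ) + 1)) n
    have hde := downs_eq ω (-((k : ℤ) + 1)) n
    have hfn := Pool.Agent.N276.BE.PathUpAux.fails_neg (ω (-((k : ℤ) + 1))) (vis ω (-((k : ℤ) + 1)) n)
    have hlt : vis ω (-((k : ℤ) + 1)) n < T (D k) (neg (ω (-((k : ℤ) + 1)))) := by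
      rw [WaldAux.lt_T_iff (fin_good (good_neg (hω _)) _)]
      omega
    unfold U
    omega
  refine ⟨D 0, fun k => ?_⟩
  have key : ∀ k, D k ≤ Y (D 0) (fun k => ω (-((k : ℤ) + 1))) k := by
    intro k
    induction k with
    | zero => exact le_rfl
    | succ k ih =>
      refine (hcr k).2.trans ?_
      exact U_mono (good_neg (hω _)) ih
  exact (hcr k).1.trans (key k)

theorem vis_mono (ω : ℤ → ℕ → Bool) (y : ℤ) : Monotone (vis ω y) :=
  monotone_nat_of_le_succ fun n => by rw [vis_succ]; omega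

theorem io_succ (ω : ℤ → ℕ → Bool) (hω : ∀ y, Good (ω y)) (y : ℤ)
    (h : ∀ N, ∃ n, N ≤ n ∧ X ω n = y) : ∀ N, ∃ n, N ≤ n ∧ X ω n = y + 1 := by
  classical
  intro N
  obtain ⟨i, hi, hs⟩ := (hω y).1 (vis ω y N)
  have hunb : ∀ j, ∃ n, j ≤ vis ω y n := by
    intro j
    induction j with
    | zero => exact ⟨0, Nat.zero_le _⟩
    | succ j ih =>
      obtain ⟨n, hn⟩ := ih
      obtain ⟨n', hn', hX⟩ := h n
      refine ⟨n' + 1, ?_⟩
      rw [vis_succ, if_pos hX]
      have := vis_mono ω y hn'
      omega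
  have hex := hunb (i + 1)
  have h1 := Nat.find_spec hex
  have h0 : Nat.find hex ≠ 0 := by
    intro e
    rw [e] at h1
    simp [vis] at h1
  obtain ⟨n, hn⟩ : ∃ n, Nat.find hex = n + 1 := ⟨Nat.find hex - 1, by omega⟩
  have h2 : vis ω y n ≤ i := by
    have := Nat.find_min hex (show n < Nat.find hex by omega)
    omega
  rw [hn, vis_succ] at h1
  have hX : X ω n = y := by
    by_contra hne
    rw [if_neg hne] at h1
    omega
  rw [if_pos hX] at h1
  have hvi : vis ω y n = i := by omega
  have hNn : N ≤ n + 1 := by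
    by_contra hlt
    have := vis_mono ω y (show n + 1 ≤ N by omega)
    rw [vis_succ, if_pos hX] at this
    omega
  refine ⟨n + 1, hNn, ?_⟩
  rw [X_succ, hX, hvi, hs]
  simp

theorem sup : StmSup := by
  intro ω hω hnot m
  by_contra hno
  push Not at hno
  have hlt : ∀ t, X ω t < m := by
    intro t
    induction t with
    | zero =>
      have := hno 0
      rw [X_zero] at this ⊢
      omega
    | succ t ih =>
      have := hno (t + 1)
      rcases step ω t with h | h <;> omega
  -- no site is visited infinitely often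
  have hfin : ∀ y : ℤ, ¬ ∀ N, ∃ n, N ≤ n ∧ X ω n = y := by
    intro y hy
    have hy0 : y < m := by
      obtain ⟨n, -, hn⟩ := hy 0
      rw [← hn]; exact hlt n
    have hall : ∀ k : ℕ, ∀ N, ∃ n, N ≤ n ∧ X ω n = y + k := by
      intro k
      induction k with
      | zero => simpa using hy
      | succ k ih =>
        have := io_succ ω hω _ ih
        push_cast
        simpa [add_assoc] using this
    obtain ⟨n, -, hn⟩ := hall (m - y).toNat 0
    have := hlt n
    omega
  apply hnot
  rw [tendsto_atTop_atBot]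
  intro b
  -- times after the last visit to the sites between `b` and `m`
  have hk : ∀ k : ℕ, ∃ N, ∀ n, N ≤ n → X ω n < (m : ℤ) - k := by
    intro k
    induction k with
    | zero => exact ⟨0, fun n _ => by simpa using hlt n⟩
    | succ k ih =>
      obtain ⟨N, hN⟩ := ih
      have h := hfin ((m : ℤ) - k - 1)
      push Not at h
      obtain ⟨N', hN'⟩ := h
      refine ⟨max N N', fun n hn => ?_⟩
      have h1 := hN n (le_trans (le_max_left _ _) hn)
      have h2 := hN' n (le_trans (le_max_right _ _) hn)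
      push_cast
      omega
  obtain ⟨N, hN⟩ := hk ((m : ℤ) - b).toNat
  refine ⟨N, fun n hn => ?_⟩
  have := hN n hn
  omega

end Pool.Agent.Run7.h681.ER
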