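import Pool.Agent.Run7.h681.ER.Basic

/-!
# Right transience depends only on the environment
(the determination of the law by the cylinder sets is as in `N276/BE/Transfer.lean`)
-/

set_option autoImplicit false

open MeasureTheory ProbabilityTheory Filter Topology Set
open scoped ENNReal

namespace Pool.Agent.Run7.h681.ER

open Pool.Agent.N276.ER

universe u v

theorem meas_top : MeasurableSet {y : ℕ → ℤ | Tendsto (fun n : ℕ => y n) atTop atTop} := by
  have e : {y : ℕ → ℤ | Tendsto (fun n : ℕ => y n) atTop atTop} =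
      ⋂ b : ℤ, ⋃ N : ℕ, ⋂ n : ℕ, ⋂ (_ : N ≤ n), {y : ℕ → ℤ | b ≤ y n} := by
    ext y
    simp [tendsto_atTop_atTop]
  rw [e]
  refine MeasurableSet.iInter fun b => MeasurableSet.iUnion fun N => MeasurableSet.iInter fun n =>
    MeasurableSet.iInter fun _ => ?_
  exact measurableSet_le measurable_const (measurable_pi_apply n)

theorem cyl {Ω : Type u} [MeasurableSpace Ω] {P : Measure Ω} {X : ℕ → Ω → ℤ} {p : ℕ → ℝ}
    (h : IsERW p P X) (x : ℕ → ℤ) (n : ℕ) :
    P {ω | ∀ k ≤ n, X k ω = x k} =
      (if x 0 = 0 then 1 else 0) * ∏ j ∈ Finset.range n, ENNReal.ofReal (stepProb p x j) := by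
  have := h.prob
  induction n with
  | zero =>
    have e : {ω | ∀ k ≤ 0, X k ω = x k} = {ω | X 0 ω = x 0} := by
      ext ω; simp
    rw [e]
    split_ifs with h0
    · simp only [Finset.range_zero, Finset.prod_empty, mul_one]
      rw [h0]
      have hms : MeasurableSet {ω | X 0 ω = 0} := h.meas 0 (measurableSet_singleton 0)
      exact (prob_compl_eq_zero_iff hms).1 h.zero
    · simp only [Finset.range_zero, Finset.prod_empty, mul_one]
      refine measure_mono_null (t := {ω | ¬ X 0 ω = 0}) ?_ h.zero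
      intro ω hω hω'
      exact h0 (by rw [← hω, hω'])
  | succ n ih =>
    rw [h.step n x, ih, Finset.prod_range_succ, mul_assoc]

theorem law_eq {p : ℕ → ℝ} {Ω : Type u} [MeasurableSpace Ω] {P : Measure Ω}
    {X : ℕ → Ω → ℤ} {Ω' : Type v} [MeasurableSpace Ω'] {P' : Measure Ω'} {X' : ℕ → Ω' → ℤ}
    (h : IsERW p P X) (h' : IsERW p P' X') :
    P.map (fun ω k => X k ω) = P'.map (fun ω k => X' k ω) := by
  have := h.prob
  have := h'.prob
  have hm : Measurable (fun ω k => X k ω) := measurable_pi_iff.2 h.meas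
  have hm' : Measurable (fun ω k => X' k ω) := measurable_pi_iff.2 h'.meas
  have hP : IsProbabilityMeasure (P.map (fun ω k => X k ω)) :=
    Measure.isProbabilityMeasure_map hm.aemeasurable
  have hP' : IsProbabilityMeasure (P'.map (fun ω k => X' k ω)) :=
    Measure.isProbabilityMeasure_map hm'.aemeasurable
  set μ := P.map (fun ω k => X k ω) with hμ
  set μ' := P'.map (fun ω k => X' k ω) with hμ'
  have hfam : IsProjectiveMeasureFamily (α := fun _ : ℕ => ℤ)
      (fun I : Finset ℕ => μ.map (I.restrict (π := fun _ : ℕ => ℤ))) := by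
    intro I J hJI
    rw [Measure.map_map (by fun_prop) (by fun_prop)]
    rfl
  have h1 : IsProjectiveLimit μ (fun I : Finset ℕ => μ.map (I.restrict (π := fun _ : ℕ => ℤ))) :=
    fun I => rfl
  have h2 : IsProjectiveLimit μ' (fun I : Finset ℕ => μ.map (I.restrict (π := fun _ : ℕ => ℤ))) := by
    rw [isProjectiveLimit_nat_iff hfam]
    intro n
    refine Measure.ext_of_singleton fun z => ?_
    rw [Measure.map_apply (Preorder.measurable_frestrictLe n) (measurableSet_singleton z),
      Measure.map_apply (by fun_prop) (measurableSet_singleton z)]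
    have hpre : MeasurableSet ((Preorder.frestrictLe (π := fun _ : ℕ => ℤ) n) ⁻¹' {z}) :=
      Preorder.measurable_frestrictLe n (measurableSet_singleton z)
    have e : ((Finset.Iic n).restrict (π := fun _ : ℕ => ℤ)) ⁻¹' {z} =
      (Preorder.frestrictLe (π := fun _ : ℕ => ℤ) n) ⁻¹' {z} := rfl
    rw [e, hμ, hμ', Measure.map_apply hm' hpre, Measure.map_apply hm hpre]
    set x : ℕ → ℤ := fun k => if hk : k ≤ n then z ⟨k, Finset.mem_Iic.2 hk⟩ else 0 with hx
    have e1 : ∀ y : ℕ → ℤ, y ∈ (Preorder.frestrictLe (π := fun _ : ℕ => ℤ) n) ⁻¹' {z} ↔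
        ∀ k ≤ n, y k = x k := by
      intro y
      constructor
      · intro hy k hk
        have hy' : Preorder.frestrictLe (π := fun _ : ℕ => ℤ) n y = z := hy
        rw [hx]
        simp only [hk, dite_true]
        rw [← hy']
        rfl
      · intro hy
        show Preorder.frestrictLe (π := fun _ : ℕ => ℤ) n y = z
        funext ⟨k, hk⟩
        have hk' := Finset.mem_Iic.1 hk
        have := hy k hk'
        rw [hx] at this
        simp only [hk', dite_true] at this
        exact this
    have e2 : (fun ω k => X k ω) ⁻¹' ((Preorder.frestrictLe (π := fun _ : ℕ => ℤ) n) ⁻¹' {z}) =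
        {ω | ∀ k ≤ n, X k ω = x k} := by
      ext ω
      exact e1 _
    have e3 : (fun ω k => X' k ω) ⁻¹' ((Preorder.frestrictLe (π := fun _ : ℕ => ℤ) n) ⁻¹' {z}) =
        {ω | ∀ k ≤ n, X' k ω = x k} := by
      ext ω
      exact e1 _
    rw [e2, e3, cyl h, cyl h']
  have hfin : ∀ I : Finset ℕ, IsFiniteMeasure (μ.map (I.restrict (π := fun _ : ℕ => ℤ))) :=
    fun I => inferInstance
  exact h1.unique h2

theorem transfer : StmTransfer.{u} := by
  intro p Ω _ P X Ω' _ P' X' h h' hT
  have hm : Measurable (fun ω k => X k ω) := measurable_pi_iff.2 h.meas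
  have hm' : Measurable (fun ω k => X' k ω) := measurable_pi_iff.2 h'.meas
  have h1 : ∀ᵐ y ∂(P.map (fun ω k => X k ω)), Tendsto (fun n : ℕ => y n) atTop atTop :=
    (ae_map_iff hm.aemeasurable meas_top).2 hT
  rw [law_eq h h'] at h1
  exact (ae_map_iff hm'.aemeasurable meas_top).1 h1

end Pool.Agent.Run7.h681.ER
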