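import Pool.Agent.Run7.h681.ER.IO
import Pool.Agent.Run7.h681.ER.Die
import Pool.Agent.Run7.h681.ER.Kern
import Pool.Agent.Run7.h681.ER.Paths
import Pool.Agent.Run7.h681.ER.Transfer
import Pool.Agent.N276.ER.Law

/-!
# The walk is right transient
-/

set_option autoImplicit false

open MeasureTheory ProbabilityTheory Filter Topology Set
open scoped ENNReal

namespace Pool.Agent.Run7.h681.ER

open Pool.Agent.N276.ER

theorem all_good : ∀ᵐ ω ∂QQ, ∀ y, Good (ω y) := by
  have hp : IsProbabilityMeasure SS := prb.2.1
  rw [ae_all_iff]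
  intro y
  have h1 : QQ.map (fun ω : ℤ → ℕ → Bool => ω y) = SS :=
    Measure.infinitePi_map_eval (fun _ : ℤ => SS) y
  have h2 := inf
  unfold StmInf at h2
  rw [← h1] at h2
  exact ae_of_ae_map (measurable_pi_apply y).aemeasurable h2

theorem transient (hS : StmSurv) :
    ∀ᵐ ω ∂QQ, Tendsto (fun n => X ω n) atTop atTop := by
  filter_upwards [all_good, dieQ die, io hS] with ω hg hd hio
  have hnot : ¬ Tendsto (X ω) atTop atBot := by
    intro h
    obtain ⟨a, ha⟩ := left ω hg h
    obtain ⟨k, hk⟩ := hd a
    have := ha k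
    omega
  have hvis := sup ω hg hnot
  rw [tendsto_atTop_atTop]
  intro b
  obtain ⟨m, hm, hsv⟩ := hio (max 1 b.toNat)
  classical
  have hex := hvis m
  have h0 := Nat.find_spec hex
  have hb : ∀ t < Nat.find hex, X ω t < m := by
    intro t
    induction t with
    | zero =>
      intro h
      have h1 : X ω 0 ≠ m := Nat.find_min hex h
      rw [X_zero] at h1 ⊢
      omega
    | succ t ih =>
      intro h
      have h1 : X ω (t + 1) ≠ m := Nat.find_min hex h
      have h2 := ih (by omega)
      rcases step ω t with h3 | h3 <;> omega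
  have hm1 : 1 ≤ m := le_trans (le_max_left _ _) hm
  have hm2 : b.toNat ≤ m := le_trans (le_max_right _ _) hm
  refine ⟨Nat.find hex, fun n hn => ?_⟩
  have := right ω hg m hm1 (Nat.find hex) h0 hb hsv n hn
  omega

theorem law' : StmLaw := law prb meas env

end Pool.Agent.Run7.h681.ER
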