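import Pool.Agent.Run7.h681.ER.Fin

/-!
# The environment and the walk: final assembly
-/

set_option autoImplicit false

open MeasureTheory ProbabilityTheory Filter Topology Set
open scoped ENNReal

namespace Pool.Agent.Run7.h681.ER

open Pool.Agent.N276.ER

/-- the drift of the first `n` cookies -/
theorem drift_sum (n : ℕ) : ∑ i ∈ Finset.range n, (2 * pp i - 1) = 2 * A n := two_A n

theorem A_lim : Tendsto A atTop (𝓝 (1 / 2)) := by
  have h : Tendsto (fun n : ℕ => 1 / 2 + 2 / Real.log ((n : ℝ) + 2)) atTop (𝓝 (1 / 2 + 0)) := by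
    refine Tendsto.add tendsto_const_nhds (Tendsto.div_atTop tendsto_const_nhds ?_)
    exact Real.tendsto_log_atTop.comp
      (tendsto_atTop_add_const_right _ _ tendsto_natCast_atTop_atTop)
  rw [add_zero] at h
  refine h.congr' ?_
  filter_upwards [eventually_ge_atTop 100] with n hn
  rw [A_ge hn]

theorem summ : Summable (fun i => |2 * pp i - 1|) := by
  refine summable_of_sum_range_le (c := 3) (fun i => abs_nonneg _) fun n => ?_
  have h := env.2.2.2.2.1 n
  have e : ∀ i, |2 * pp i - 1| = 2 * |A (i + 1) - A i| := by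
    intro i
    have : 2 * pp i - 1 = 2 * (A (i + 1) - A i) := by unfold pp; ring
    rw [this, abs_mul, abs_two]
  simp only [e]
  rw [← Finset.mul_sum]
  linarith

theorem hsum : HasSum (fun i => 2 * pp i - 1) 1 := by
  have h1 : Summable (fun i => 2 * pp i - 1) := summ.of_abs
  have h2 := h1.hasSum.tendsto_sum_nat
  have h3 : Tendsto (fun n => ∑ i ∈ Finset.range n, (2 * pp i - 1)) atTop (𝓝 1) := by
    simp only [two_A]
    have := A_lim.const_mul 2
    simpa using this
  have e := tendsto_nhds_unique h2 h3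
  have h4 := h1.hasSum
  rw [e] at h4
  exact h4

theorem theta_lim : Tendsto (fun x : ℕ => 2 * (∫ s, ((U x s : ℝ) - x) ∂(stackLaw pp)) /
    ((∫ s, ((U x s : ℝ) - x) ^ 2 ∂(stackLaw pp)) / x)) atTop (𝓝 1) := by
  obtain ⟨-, h1, h2⟩ := lim mom2'
  have h := (h1.const_mul 2).div h2 (by norm_num)
  have h4 : (2 * 1 / 2 : ℝ) = 1 := by norm_num
  rw [h4] at h
  exact h

end Pool.Agent.Run7.h681.ER
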