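import Pool.Agent.Run7.h681.ER.Basic

/-!
# Infinitely many sites from which the chain survives
-/

set_option autoImplicit false

open MeasureTheory ProbabilityTheory Filter Topology Set
open scoped ENNReal

namespace Pool.Agent.Run7.h681.ER

open Pool.Agent.N276.ER

/-- the chain of the stacks `s` survives -/
def Sv : Set (ℕ → ℕ → Bool) := {s | ∀ k, 1 ≤ Z s k}

theorem meas_Sv : MeasurableSet Sv := by
  have h := meas.2.2.2.2.1
  have e : Sv = ⋂ k, {s | 1 ≤ Z s k} := by
    ext s
    simp [Sv]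
  rw [e]
  exact MeasurableSet.iInter fun k => measurableSet_le measurable_const (h k)

/-- the stacks to the right of `m` -/
def sh (m : ℕ) (ω : ℤ → ℕ → Bool) : ℕ → ℕ → Bool := fun k => ω ((m : ℤ) + k)

/-- the information in the stack at `n` -/
@[reducible] def sg (n : ℕ) : MeasurableSpace (ℤ → ℕ → Bool) :=
  MeasurableSpace.comap (fun ω : ℤ → ℕ → Bool => ω (n : ℤ)) inferInstance

theorem sh_meas {N m : ℕ} (h : N ≤ m) :
    Measurable[⨆ i, ⨆ (_ : N ≤ i), sg i] (sh m) := by
  rw [@measurable_pi_iff]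
  intro k
  have h1 : sg (m + k) ≤ ⨆ i, ⨆ (_ : N ≤ i), sg i :=
    le_iSup₂_of_le (m + k) (by omega) le_rfl
  have h2 : Measurable[sg (m + k)] (fun ω : ℤ → ℕ → Bool => ω ((m + k : ℕ) : ℤ)) :=
    comap_measurable _
  have h3 := h2.mono h1 le_rfl
  have e : (fun ω : ℤ → ℕ → Bool => sh m ω k) = fun ω => ω ((m + k : ℕ) : ℤ) := by
    funext ω
    show ω ((m : ℤ) + k) = _
    push_cast
    rfl
  rw [e]
  exact h3

theorem io (hS : StmSurv) : StmIO := by
  have hp : IsProbabilityMeasure SS := (prob env).2.1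
  have hQ : IsProbabilityMeasure QQ := (prob env).2.2.1
  have hle : ∀ n, sg n ≤ (inferInstance : MeasurableSpace (ℤ → ℕ → Bool)) := fun n =>
    (measurable_pi_apply (n : ℤ)).comap_le
  have hind : iIndep sg QQ := by
    have h1 : iIndepFun (fun (i : ℤ) (ω : ℤ → ℕ → Bool) => ω i) QQ :=
      iIndepFun_infinitePi (P := fun _ : ℤ => SS) (X := fun _ (s : ℕ → Bool) => s)
        (fun _ => measurable_id)
    have h2 := h1.precomp (g := fun n : ℕ => (n : ℤ)) Nat.cast_injective
    exact h2
  -- the probability that the chain survives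
  have hE : ∀ m : ℕ, QQ ((sh m) ⁻¹' Sv) = RR Sv := by
    intro m
    have h1 := push (fun k => (m : ℤ) + k) (fun a b hab => by
      simp only [add_right_inj, Nat.cast_inj] at hab; exact hab)
    have hm : Measurable (sh m) := measurable_pi_lambda _ fun k => measurable_pi_apply _
    have h1' : QQ.map (sh m) = RR := h1
    rw [← h1', Measure.map_apply hm meas_Sv]
  have hEm : ∀ m : ℕ, MeasurableSet ((sh m) ⁻¹' Sv) := by
    intro m
    have hm : Measurable (sh m) := measurable_pi_lambda _ fun k => measurable_pi_apply _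
    exact hm meas_Sv
  let t : Set (ℤ → ℕ → Bool) := ⋂ M : ℕ, ⋃ m, ⋃ (_ : M ≤ m), (sh m) ⁻¹' Sv
  have ht : MeasurableSet[limsup sg atTop] t := by
    rw [limsup_eq_iInf_iSup_of_nat, MeasurableSpace.measurableSet_iInf]
    intro N
    have e : t = ⋂ M : ℕ, ⋃ m, ⋃ (_ : M + N ≤ m), (sh m) ⁻¹' Sv := by
      ext ω
      simp only [t, mem_iInter, mem_iUnion, mem_preimage, exists_prop]
      constructor
      · intro h M
        exact h (M + N)
      · intro h M
        obtain ⟨m, hm, h1⟩ := h M
        exact ⟨m, by omega, h1⟩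
    rw [e]
    refine MeasurableSet.iInter fun M => MeasurableSet.iUnion fun m =>
      MeasurableSet.iUnion fun hm => ?_
    exact sh_meas (N := N) (m := m) (by omega) meas_Sv
  have h01 := measure_zero_or_one_of_measurableSet_limsup_atTop hle hind ht
  have hpos : 0 < QQ t := by
    have hanti : Antitone fun M : ℕ => ⋃ m, ⋃ (_ : M ≤ m), (sh m) ⁻¹' Sv := by
      intro M M' hMM ω hω
      simp only [mem_iUnion, mem_preimage, exists_prop] at hω ⊢
      obtain ⟨m, hm, h1⟩ := hω
      exact ⟨m, hMM.trans hm, h1⟩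
    have h1 : QQ t = ⨅ M : ℕ, QQ (⋃ m, ⋃ (_ : M ≤ m), (sh m) ⁻¹' Sv) := by
      refine hanti.measure_iInter (fun M => ?_) ⟨0, measure_ne_top _ _⟩
      exact (MeasurableSet.iUnion fun m => MeasurableSet.iUnion fun _ => hEm m).nullMeasurableSet
    rw [h1]
    refine lt_of_lt_of_le hS (le_iInf fun M => ?_)
    show RR Sv ≤ _
    rw [← hE M]
    refine measure_mono fun ω hω => ?_
    simp only [mem_iUnion, exists_prop]
    exact ⟨M, le_rfl, hω⟩
  have h1 : QQ t = 1 := by
    rcases h01 with h | h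
    · exact absurd h hpos.ne'
    · exact h
  have htm : MeasurableSet t := MeasurableSet.iInter fun M => MeasurableSet.iUnion fun m =>
    MeasurableSet.iUnion fun _ => hEm m
  have h2 : ∀ᵐ ω ∂QQ, ω ∈ t := by
    rw [ae_iff]
    exact (prob_compl_eq_zero_iff htm).2 h1
  filter_upwards [h2] with ω hω M
  simp only [t, mem_iInter, mem_iUnion, mem_preimage, exists_prop] at hω
  obtain ⟨m, hm, h3⟩ := hω M
  exact ⟨m, hm, h3⟩

end Pool.Agent.Run7.h681.ER
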