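import Pool.Agent.Run7.h681.ER.Basic

/-!
# The Lyapunov function `1 / log`
-/

set_option autoImplicit false

open MeasureTheory ProbabilityTheory Filter Topology Set
open scoped ENNReal

namespace Pool.Agent.Run7.h681.ER

open Pool.Agent.N276.ER

/-- the second order expansion of `1 / log` with errors -/
theorem pointwise {L v ε : ℝ} (hL : 4 ≤ L) (hv : |v| ≤ ε) (hε : ε ≤ 1 / 16) :
    1 / (L + Real.log (1 + v)) ≤
      1 / L - v / L ^ 2 + (1 / 2 + 4 / 3 * ε + 5 / 4 / L) * (v ^ 2 / L ^ 2) := by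
  have hv16 : |v| ≤ 1 / 16 := hv.trans hε
  have hv0 : 0 ≤ |v| := abs_nonneg v
  have h1 : |v - v ^ 2 / 2 - Real.log (1 + v)| ≤ 4 / 3 * |v| ^ 3 := by
    have h := Real.abs_log_sub_add_sum_range_le (x := -v) (by rw [abs_neg]; linarith) 2
    rw [abs_neg] at h
    have e : (∑ i ∈ Finset.range 2, (-v) ^ (i + 1) / ((i : ℝ) + 1)) + Real.log (1 - -v) =
        -(v - v ^ 2 / 2 - Real.log (1 + v)) := by
      rw [Finset.sum_range_succ, Finset.sum_range_one]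
      norm_num
      ring
    rw [e, abs_neg] at h
    refine h.trans ?_
    rw [div_le_iff₀ (by linarith)]
    have h3 : 0 ≤ |v| ^ 3 := by positivity
    nlinarith
  set ℓ := Real.log (1 + v) with hℓ
  have hvv : v ^ 2 = |v| ^ 2 := (sq_abs v).symm
  have hl : v - v ^ 2 / 2 - 4 / 3 * |v| ^ 3 ≤ ℓ := by
    have := (abs_le.1 h1).2
    linarith
  have h3v : |v| ^ 3 ≤ ε * v ^ 2 := by
    rw [hvv, pow_succ, mul_comm]
    exact mul_le_mul_of_nonneg_right hv (by positivity)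
  have hℓa : |ℓ| ≤ |v| * (1 + |v|) := by
    have h2 : |ℓ| ≤ |v| + v ^ 2 / 2 + 4 / 3 * |v| ^ 3 := by
      have e : ℓ = v - v ^ 2 / 2 - (v - v ^ 2 / 2 - ℓ) := by ring
      calc |ℓ| = |v - v ^ 2 / 2 - (v - v ^ 2 / 2 - ℓ)| := by rw [← e]
        _ ≤ |v - v ^ 2 / 2| + |v - v ^ 2 / 2 - ℓ| := abs_sub _ _
        _ ≤ (|v| + |v ^ 2 / 2|) + 4 / 3 * |v| ^ 3 := add_le_add (abs_sub _ _) h1
        _ = _ := by rw [abs_of_nonneg (by positivity : 0 ≤ v ^ 2 / 2)]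
    rw [hvv] at h2
    have h4 : |v| ^ 3 ≤ 1 / 16 * |v| ^ 2 := by
      rw [pow_succ, mul_comm]
      exact mul_le_mul_of_nonneg_right hv16 (by positivity)
    nlinarith [sq_nonneg |v|]
  have hℓ8 : |ℓ| ≤ 1 / 8 := by
    refine hℓa.trans ?_
    nlinarith
  have hℓ2 : ℓ ^ 2 ≤ 9 / 8 * v ^ 2 * (17 / 16) := by
    rw [← sq_abs ℓ, hvv]
    calc |ℓ| ^ 2 ≤ (|v| * (1 + |v|)) ^ 2 := pow_le_pow_left₀ (abs_nonneg _) hℓa 2
      _ = |v| ^ 2 * (1 + |v|) ^ 2 := by ring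
      _ ≤ |v| ^ 2 * (9 / 8 * (17 / 16)) := by
          refine mul_le_mul_of_nonneg_left ?_ (by positivity)
          nlinarith
      _ = _ := by ring
  have hLℓ : L * (31 / 32) ≤ L + ℓ := by
    have := (abs_le.1 hℓ8).1
    linarith
  have hpos : 0 < L + ℓ := by linarith
  have hLpos : 0 < L := by linarith
  have e1 : 1 / (L + ℓ) = 1 / L - ℓ / L ^ 2 + ℓ ^ 2 / (L ^ 2 * (L + ℓ)) := by
    field_simp
    ring
  rw [e1]
  have h5 : ℓ ^ 2 / (L ^ 2 * (L + ℓ)) ≤ 5 / 4 / L * (v ^ 2 / L ^ 2) := by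
    have e2 : 5 / 4 / L * (v ^ 2 / L ^ 2) = (5 / 4 * v ^ 2) / (L ^ 2 * L) := by
      field_simp
    rw [e2, div_le_div_iff₀ (by positivity) (by positivity)]
    have h6 : ℓ ^ 2 * L ≤ 5 / 4 * v ^ 2 * (L + ℓ) := by
      have h7 : ℓ ^ 2 * L ≤ (9 / 8 * v ^ 2 * (17 / 16)) * L := mul_le_mul_of_nonneg_right hℓ2 hLpos.le
      have h8 : 5 / 4 * v ^ 2 * (L * (31 / 32)) ≤ 5 / 4 * v ^ 2 * (L + ℓ) :=
        mul_le_mul_of_nonneg_left hLℓ (by positivity)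
      have h9 : (9 / 8 * v ^ 2 * (17 / 16)) * L ≤ 5 / 4 * v ^ 2 * (L * (31 / 32)) := by
        have : 0 ≤ v ^ 2 * L := by positivity
        nlinarith
      linarith
    calc ℓ ^ 2 * (L ^ 2 * L) = (ℓ ^ 2 * L) * L ^ 2 := by ring
      _ ≤ (5 / 4 * v ^ 2 * (L + ℓ)) * L ^ 2 := mul_le_mul_of_nonneg_right h6 (by positivity)
      _ = _ := by ring
  have h10 : - (ℓ / L ^ 2) ≤ - v / L ^ 2 + (1 / 2 + 4 / 3 * ε) * (v ^ 2 / L ^ 2) := by
    have e3 : - v / L ^ 2 + (1 / 2 + 4 / 3 * ε) * (v ^ 2 / L ^ 2) =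
        (- v + (1 / 2 + 4 / 3 * ε) * v ^ 2) / L ^ 2 := by ring
    rw [e3, ← neg_div]
    apply div_le_div_of_nonneg_right _ (by positivity)
    nlinarith
  have e4 : (1 / 2 + 4 / 3 * ε + 5 / 4 / L) * (v ^ 2 / L ^ 2) =
      (1 / 2 + 4 / 3 * ε) * (v ^ 2 / L ^ 2) + 5 / 4 / L * (v ^ 2 / L ^ 2) := by ring
  rw [e4]
  have e5 : - v / L ^ 2 = - (v / L ^ 2) := neg_div _ _
  linarith

/-- the quadratic majorant is nonnegative -/
theorem majorant_nonneg {L v ε : ℝ} (hL : 4 ≤ L) (hε : 0 ≤ ε) :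
    0 ≤ 1 / L - v / L ^ 2 + (1 / 2 + 4 / 3 * ε + 5 / 4 / L) * (v ^ 2 / L ^ 2) := by
  have hLpos : 0 < L := by linarith
  have h1 : 1 / L - v / L ^ 2 + 1 / 2 * (v ^ 2 / L ^ 2) = (2 * L - 1 + (v - 1) ^ 2) / (2 * L ^ 2) := by
    field_simp
    ring
  have h2 : 0 ≤ (2 * L - 1 + (v - 1) ^ 2) / (2 * L ^ 2) := by
    apply div_nonneg _ (by positivity)
    nlinarith [sq_nonneg (v - 1)]
  have h3 : 0 ≤ (4 / 3 * ε + 5 / 4 / L) * (v ^ 2 / L ^ 2) := by positivity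
  have h4 : (1 / 2 + 4 / 3 * ε + 5 / 4 / L) * (v ^ 2 / L ^ 2) =
    1 / 2 * (v ^ 2 / L ^ 2) + (4 / 3 * ε + 5 / 4 / L) * (v ^ 2 / L ^ 2) := by ring
  rw [h4]
  linarith

/-- numerical facts for large `q` -/
theorem numer {q L : ℝ} (hq : 10 ^ 10 ≤ q) (hL : L = Real.log (q ^ 8 + 3)) :
    4 ≤ L ∧ L * (2 * (4 / 3 * (2 / q ^ 2)) + 4 * ((10 * q ^ 4 + 50) / (q ^ 8 + 3)) +
      (q ^ 8 + 3) * L ^ 2 * (2 * Real.exp (-(q ^ 4 / 24)))) ≤ 1 / 2 := by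
  have hq1 : (1 : ℝ) ≤ q := by linarith [show (1 : ℝ) ≤ 10 ^ 10 by norm_num]
  have hq0 : 0 < q := by linarith
  have hq8 : 10 ^ 10 ≤ q ^ 8 := hq.trans (le_self_pow₀ hq1 (by norm_num))
  have hL4 : 4 ≤ L := by
    rw [hL]
    refine log102.trans (Real.log_le_log (by norm_num) ?_)
    linarith [show (102 : ℝ) ≤ 10 ^ 10 by norm_num]
  have hL8 : L ≤ 8 * q := by
    rw [hL]
    have h1 : q ^ 8 + 3 ≤ q ^ 8 * Real.exp 1 := by
      have := Real.exp_one_gt_d9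
      have h2 : (3 : ℝ) ≤ q ^ 8 * 1 := by linarith [show (3 : ℝ) ≤ 10 ^ 10 by norm_num]
      nlinarith [pow_pos hq0 8]
    calc Real.log (q ^ 8 + 3) ≤ Real.log (q ^ 8 * Real.exp 1) :=
          Real.log_le_log (by positivity) h1
      _ = 8 * Real.log q + 1 := by
          rw [Real.log_mul (by positivity) (Real.exp_pos 1).ne', Real.log_exp, Real.log_pow]
          norm_num
      _ ≤ 8 * (q - 1) + 1 := by linarith [Real.log_le_sub_one_of_pos hq0]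
      _ ≤ 8 * q := by linarith
  refine ⟨hL4, ?_⟩
  have hL0 : 0 < L := by linarith
  -- first term
  have t1 : L * (2 * (4 / 3 * (2 / q ^ 2))) ≤ 1 / 8 := by
    have h1 : L * (2 * (4 / 3 * (2 / q ^ 2))) ≤ 8 * q * (2 * (4 / 3 * (2 / q ^ 2))) :=
      mul_le_mul_of_nonneg_right hL8 (by positivity)
    have h2 : 8 * q * (2 * (4 / 3 * (2 / q ^ 2))) = (128 / 3) / q := by
      field_simp
      ring
    rw [h2] at h1
    refine h1.trans ?_
    rw [div_le_iff₀ hq0]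
    linarith [show (1000 : ℝ) ≤ 10 ^ 10 by norm_num]
  -- second term
  have t2 : L * (4 * ((10 * q ^ 4 + 50) / (q ^ 8 + 3))) ≤ 1 / 8 := by
    have h0 : (10 * q ^ 4 + 50) / (q ^ 8 + 3) ≤ 60 / q ^ 4 := by
      rw [div_le_div_iff₀ (by positivity) (by positivity)]
      have h4 : (1 : ℝ) ≤ q ^ 4 := one_le_pow₀ hq1
      nlinarith [sq_nonneg (q ^ 4), h4]
    have h1 : L * (4 * ((10 * q ^ 4 + 50) / (q ^ 8 + 3))) ≤ 8 * q * (4 * (60 / q ^ 4)) := by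
      apply mul_le_mul hL8 (by linarith) (by positivity) (by positivity)
    have h2 : 8 * q * (4 * (60 / q ^ 4)) = 1920 / q ^ 3 := by
      field_simp
      ring
    rw [h2] at h1
    refine h1.trans ?_
    rw [div_le_iff₀ (by positivity)]
    have h5 : q ≤ q ^ 3 := le_self_pow₀ hq1 (by norm_num)
    linarith [show (1000000 : ℝ) ≤ 10 ^ 10 by norm_num]
  -- third term
  have t3 : L * ((q ^ 8 + 3) * L ^ 2 * (2 * Real.exp (-(q ^ 4 / 24)))) ≤ 1 / 8 := by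
    have hz : 0 < q ^ 4 / 24 := by positivity
    have he : Real.exp (-(q ^ 4 / 24)) ≤ 6 / (q ^ 4 / 24) ^ 3 := by
      rw [Real.exp_neg, inv_eq_one_div, div_le_div_iff₀ (Real.exp_pos _) (by positivity)]
      have h := Real.pow_div_factorial_le_exp (q ^ 4 / 24) hz.le 3
      have h6 : ((Nat.factorial 3 : ℕ) : ℝ) = 6 := by norm_num [Nat.factorial]
      rw [h6, div_le_iff₀ (by norm_num)] at h
      linarith
    have h2 : q ^ 8 + 3 ≤ 2 * q ^ 8 := by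
      linarith [show (3 : ℝ) ≤ 10 ^ 10 by norm_num]
    have h3 : L ^ 2 ≤ (8 * q) ^ 2 := pow_le_pow_left₀ hL0.le hL8 2
    calc L * ((q ^ 8 + 3) * L ^ 2 * (2 * Real.exp (-(q ^ 4 / 24))))
        ≤ (8 * q) * ((2 * q ^ 8) * (8 * q) ^ 2 * (2 * (6 / (q ^ 4 / 24) ^ 3))) := by
          gcongr
      _ = (8 * 2 * 64 * 2 * 6 * 13824) / q := by
          field_simp
          ring
      _ ≤ 1 / 8 := by
          rw [div_le_iff₀ hq0]
          refine le_trans ?_ (mul_le_mul_of_nonneg_left hq (by norm_num))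
          norm_num
  have : L * (2 * (4 / 3 * (2 / q ^ 2)) + 4 * ((10 * q ^ 4 + 50) / (q ^ 8 + 3)) +
      (q ^ 8 + 3) * L ^ 2 * (2 * Real.exp (-(q ^ 4 / 24)))) =
      L * (2 * (4 / 3 * (2 / q ^ 2))) + L * (4 * ((10 * q ^ 4 + 50) / (q ^ 8 + 3))) +
      L * ((q ^ 8 + 3) * L ^ 2 * (2 * Real.exp (-(q ^ 4 / 24)))) := by ring
  rw [this]
  linarith

end Pool.Agent.Run7.h681.ER
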