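import Pool.Agent.Run7.h681.ER.Lyap

/-!
# The Lyapunov inequality
-/

set_option autoImplicit false

open MeasureTheory ProbabilityTheory Filter Topology Set
open scoped ENNReal

namespace Pool.Agent.Run7.h681.ER

open Pool.Agent.N276.ER

theorem lyap : StmLyap := by
  refine ⟨10 ^ 80, ?_⟩
  intro x hx μ D hμ hD hlow hint hmean hsq htail
  have hxR : (10 : ℝ) ^ 80 ≤ x := by exact_mod_cast hx
  have hx0 : (0 : ℝ) ≤ x := Nat.cast_nonneg x
  -- the eighth root
  set q : ℝ := Real.sqrt (Real.sqrt (Real.sqrt x)) with hqdef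
  have hq0 : 0 ≤ q := Real.sqrt_nonneg _
  have hq2 : q ^ 2 = Real.sqrt (Real.sqrt x) := Real.sq_sqrt (Real.sqrt_nonneg _)
  have hq4 : q ^ 4 = Real.sqrt x := by
    calc q ^ 4 = (q ^ 2) ^ 2 := by ring
      _ = _ := by rw [hq2]; exact Real.sq_sqrt (Real.sqrt_nonneg _)
  have hq8 : q ^ 8 = x := by
    calc q ^ 8 = (q ^ 4) ^ 2 := by ring
      _ = _ := by rw [hq4]; exact Real.sq_sqrt hx0
  have hq : 10 ^ 10 ≤ q := by
    by_contra h
    push Not at h
    have h1 : q ^ 8 < (10 ^ 10) ^ 8 := pow_lt_pow_left₀ h hq0 (by norm_num)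
    rw [hq8, ← pow_mul] at h1
    exact absurd hxR (not_le.2 h1)
  have hq1 : (1 : ℝ) ≤ q := by linarith [show (1 : ℝ) ≤ 10 ^ 10 by norm_num]
  have hqpos : 0 < q := by linarith
  set y : ℝ := (x : ℝ) + 3 with hy
  have hypos : 0 < y := by linarith
  set L : ℝ := Real.log y with hLdef
  obtain ⟨hL4, hnum⟩ := numer hq (L := L) (by rw [hLdef, hy, hq8])
  have hL0 : 0 < L := by linarith
  set ε : ℝ := 2 / q ^ 2 with hε
  have hε0 : 0 ≤ ε := by positivity
  have hq2' : (1000 : ℝ) ≤ q ^ 2 := by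
    have : q ≤ q ^ 2 := le_self_pow₀ hq1 (by norm_num)
    linarith [show (1000 : ℝ) ≤ 10 ^ 10 by norm_num]
  have hε16 : ε ≤ 1 / 16 := by
    rw [hε, div_le_iff₀ (by positivity)]
    linarith
  -- the threshold
  set t : ℕ := ⌈q ^ 6⌉₊ with ht
  have ht1 : q ^ 6 ≤ t := Nat.le_ceil _
  have ht2 : (t : ℝ) ≤ q ^ 6 + 1 := (Nat.ceil_lt_add_one (by positivity)).le
  have hq6 : (1000 : ℝ) ≤ q ^ 6 := by
    have : q ≤ q ^ 6 := le_self_pow₀ hq1 (by norm_num)
    linarith [show (1000 : ℝ) ≤ 10 ^ 10 by norm_num]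
  have ht3 : (t : ℝ) ≤ 2 * q ^ 6 := by linarith
  have htn : 2 ≤ t := by
    have : (2 : ℝ) ≤ t := by linarith
    exact_mod_cast this
  have ht4 : (t : ℝ) ≤ x := by
    rw [← hq8]
    have : 2 * q ^ 6 ≤ q ^ 8 := by
      calc 2 * q ^ 6 ≤ q ^ 2 * q ^ 6 := mul_le_mul_of_nonneg_right (by linarith) (by positivity)
        _ = q ^ 8 := by ring
    linarith
  -- the bad event
  set P : ℝ := μ.real {s | (t : ℝ) ≤ |D s|} with hP
  have hPb : P ≤ 2 * Real.exp (-(q ^ 4 / 24)) := by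
    refine (htail t htn).trans ?_
    apply mul_le_mul_of_nonneg_left _ (by norm_num)
    apply Real.exp_le_exp.2
    rw [neg_div, neg_le_neg_iff, div_le_div_iff₀ (by norm_num) (by positivity)]
    have h1 : q ^ 4 * (8 * (2 * (x : ℝ) + t)) ≤ q ^ 4 * (24 * q ^ 8) := by
      apply mul_le_mul_of_nonneg_left _ (by positivity)
      rw [hq8]; linarith
    have h2 : q ^ 4 * (24 * q ^ 8) = (q ^ 6) ^ 2 * 24 := by ring
    have h3 : (q ^ 6) ^ 2 * 24 ≤ (t : ℝ) ^ 2 * 24 := by
      apply mul_le_mul_of_nonneg_right _ (by norm_num)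
      exact pow_le_pow_left₀ (by positivity) ht1 2
    linarith
  -- the majorant
  set a : ℝ := 1 / 2 + 4 / 3 * ε + 5 / 4 / L with ha
  have ha0 : 0 < a := by positivity
  let Q : (ℕ → Bool) → ℝ := fun s => 1 / L - (D s / y) / L ^ 2 + a * ((D s / y) ^ 2 / L ^ 2)
  have hQ0 : ∀ s, 0 ≤ Q s := fun s => majorant_nonneg hL4 hε0
  have hF : ∀ s, 1 / Real.log (x + D s + 3) ≤ Q s + indicator {s | (t : ℝ) ≤ |D s|} (fun _ => (1 : ℝ)) s := by
    intro s
    by_cases hs : (t : ℝ) ≤ |D s|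
    · rw [indicator_of_mem (show s ∈ {s | (t : ℝ) ≤ |D s|} from hs)]
      have h1 : 1 ≤ Real.log (x + D s + 3) := by
        rw [Real.le_log_iff_exp_le (by linarith [hlow s])]
        have := Real.exp_one_lt_d9
        linarith [hlow s]
      have h2 : 1 / Real.log (x + D s + 3) ≤ 1 := by
        rw [div_le_one (by linarith)]; exact h1
      linarith [hQ0 s]
    · rw [indicator_of_notMem (show s ∉ {s | (t : ℝ) ≤ |D s|} from hs), add_zero]
      have hs' : |D s| ≤ t := (not_le.1 hs).le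
      have hv : |D s / y| ≤ ε := by
        rw [abs_div, abs_of_pos hypos, hε, div_le_div_iff₀ hypos (by positivity)]
        calc |D s| * q ^ 2 ≤ (2 * q ^ 6) * q ^ 2 :=
              mul_le_mul_of_nonneg_right (hs'.trans ht3) (by positivity)
          _ = 2 * q ^ 8 := by ring
          _ = 2 * x := by rw [hq8]
          _ ≤ 2 * y := by linarith
      have h1 := pointwise hL4 hv hε16
      have e : Real.log (x + D s + 3) = L + Real.log (1 + D s / y) := by
        rw [hLdef, ← Real.log_mul hypos.ne']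
        · congr 1
          field_simp
          ring
        · have := (abs_le.1 (hv.trans hε16)).1
          linarith
      rw [e]
      exact h1
  -- integrability
  have hD1 : Integrable D μ := by
    refine Integrable.mono' ((hint.add (integrable_const 1))) hD.aestronglyMeasurable
      (Eventually.of_forall fun s => ?_)
    rw [Real.norm_eq_abs]
    show |D s| ≤ D s ^ 2 + 1
    rw [← sq_abs]
    nlinarith [sq_nonneg (|D s| - 1), abs_nonneg (D s)]
  have hms : MeasurableSet {s | (t : ℝ) ≤ |D s|} :=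
    measurableSet_le measurable_const (continuous_abs.measurable.comp hD)
  have hQi : Integrable Q μ := by
    refine ((integrable_const _).sub ((hD1.div_const _).div_const _)).add ?_
    have e : (fun s => a * ((D s / y) ^ 2 / L ^ 2)) = fun s => (a / (y ^ 2 * L ^ 2)) * D s ^ 2 := by
      funext s
      field_simp
    rw [e]
    exact hint.const_mul _
  have hIi : Integrable (indicator {s | (t : ℝ) ≤ |D s|} (fun _ => (1 : ℝ))) μ :=
    (integrable_const (1 : ℝ)).indicator hms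
  have hFi : Integrable (fun s => 1 / Real.log (x + D s + 3)) μ := by
    refine Integrable.of_bound (C := 1) ?_ (Eventually.of_forall fun s => ?_)
    · have hm : Measurable fun s => 1 / Real.log (x + D s + 3) := by fun_prop
      exact hm.aestronglyMeasurable
    · have h1 : 1 ≤ Real.log (x + D s + 3) := by
        rw [Real.le_log_iff_exp_le (by linarith [hlow s])]
        have := Real.exp_one_lt_d9
        linarith [hlow s]
      rw [Real.norm_eq_abs, abs_of_nonneg (by positivity), div_le_one (by linarith)]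
      exact h1
  have hint1 : ∫ s, 1 / Real.log (x + D s + 3) ∂μ ≤ ∫ s, Q s ∂μ + P := by
    have h1 := integral_mono hFi (hQi.add hIi) hF
    refine h1.trans (le_of_eq ?_)
    have h2 : ∫ s, (Q + indicator {s | (t : ℝ) ≤ |D s|} (fun _ => (1 : ℝ))) s ∂μ =
        ∫ s, Q s ∂μ + ∫ s, indicator {s | (t : ℝ) ≤ |D s|} (fun _ => (1 : ℝ)) s ∂μ :=
      integral_add hQi hIi
    rw [h2, integral_indicator_const _ hms]
    simp [hP]
  -- the integral of the majorant
  have hQe : ∫ s, Q s ∂μ = 1 / L - (∫ s, D s ∂μ) / (y * L ^ 2) + a * ((∫ s, D s ^ 2 ∂μ) / (y ^ 2 * L ^ 2)) := by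
    have e : Q = fun s => (1 / L - (1 / (y * L ^ 2)) * D s) + (a / (y ^ 2 * L ^ 2)) * D s ^ 2 := by
      funext s
      show 1 / L - (D s / y) / L ^ 2 + a * ((D s / y) ^ 2 / L ^ 2) = _
      field_simp
    have i1 : Integrable (fun s => 1 / L - (1 / (y * L ^ 2)) * D s) μ :=
      (integrable_const _).sub (hD1.const_mul _)
    have i2 : Integrable (fun s => (a / (y ^ 2 * L ^ 2)) * D s ^ 2) μ := hint.const_mul _
    have e1 : ∫ s, ((1 / L - (1 / (y * L ^ 2)) * D s) + (a / (y ^ 2 * L ^ 2)) * D s ^ 2) ∂μ =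
        ∫ s, (1 / L - (1 / (y * L ^ 2)) * D s) ∂μ + ∫ s, (a / (y ^ 2 * L ^ 2)) * D s ^ 2 ∂μ :=
      integral_add i1 i2
    have e2 : ∫ s, (1 / L - (1 / (y * L ^ 2)) * D s) ∂μ =
        ∫ _s, (1 / L) ∂μ - ∫ s, (1 / (y * L ^ 2)) * D s ∂μ :=
      integral_sub (integrable_const _) (hD1.const_mul _)
    rw [e]
    show ∫ s, ((1 / L - (1 / (y * L ^ 2)) * D s) + (a / (y ^ 2 * L ^ 2)) * D s ^ 2) ∂μ = _
    rw [e1, e2, integral_const_mul, integral_const_mul]
    simp only [integral_const, probReal_univ, one_smul]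
    ring
  refine hint1.trans ?_
  rw [hQe]
  show _ ≤ 1 / L
  -- the numerical inequality
  have hlogx : Real.log x ≤ L := Real.log_le_log (by linarith [show (1 : ℝ) ≤ 10 ^ 80 by norm_num]) (by linarith)
  have hlogx0 : 0 < Real.log x :=
    Real.log_pos (by linarith [show (1 : ℝ) < 10 ^ 80 by norm_num])
  have hm : 1 + 3 / L ≤ ∫ s, D s ∂μ := by
    refine le_trans ?_ hmean
    have : 3 / L ≤ 3 / Real.log x := div_le_div_of_nonneg_left (by norm_num) hlogx0 hlogx
    linarith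
  set η : ℝ := (10 * q ^ 4 + 50) / (q ^ 8 + 3) with hη
  have hyq : y = q ^ 8 + 3 := by rw [hy, hq8]
  have hs2 : ∫ s, D s ^ 2 ∂μ ≤ 2 * y * (1 + η) := by
    refine hsq.trans ?_
    rw [hη, ← hyq, ← hq4]
    have e : 2 * y * (1 + (10 * q ^ 4 + 50) / y) = 2 * y + 20 * q ^ 4 + 100 := by
      field_simp
      ring
    rw [e]
    linarith
  have hη0 : 0 ≤ η := by positivity
  have key : 2 * a * (1 + η) + y * L ^ 2 * P ≤ 1 + 3 / L := by
    have h1 : 2 * (4 / 3 * ε) + 4 * η + y * L ^ 2 * (2 * Real.exp (-(q ^ 4 / 24))) ≤ 1 / 2 / L := by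
      rw [le_div_iff₀ hL0, mul_comm, hyq]
      exact hnum
    have h2 : y * L ^ 2 * P ≤ y * L ^ 2 * (2 * Real.exp (-(q ^ 4 / 24))) :=
      mul_le_mul_of_nonneg_left hPb (by positivity)
    have h3 : 2 * a * (1 + η) ≤ 1 + 2 * (4 / 3 * ε) + 5 / 2 / L + 4 * η := by
      have h4 : 2 * a = 1 + 2 * (4 / 3 * ε) + 5 / 2 / L := by rw [ha]; ring
      have h5 : 5 / 2 / L ≤ 1 := by
        rw [div_le_one hL0]; linarith
      have h6 : 2 * a ≤ 4 := by rw [h4]; linarith
      have h7 : 2 * a * (1 + η) = 2 * a + 2 * a * η := by ring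
      rw [h7]
      have h8 : 2 * a * η ≤ 4 * η := mul_le_mul_of_nonneg_right h6 hη0
      linarith
    have h9 : 1 / 2 / L + 5 / 2 / L = 3 / L := by ring
    linarith
  have hyL : 0 < y * L ^ 2 := by positivity
  have h1 : a * ((∫ s, D s ^ 2 ∂μ) / (y ^ 2 * L ^ 2)) ≤ (2 * a * (1 + η)) / (y * L ^ 2) := by
    have e : (2 * a * (1 + η)) / (y * L ^ 2) = a * ((2 * y * (1 + η)) / (y ^ 2 * L ^ 2)) := by
      field_simp
    rw [e]
    apply mul_le_mul_of_nonneg_left _ ha0.le
    exact div_le_div_of_nonneg_right hs2 (by positivity)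
  have h2 : (1 + 3 / L) / (y * L ^ 2) ≤ (∫ s, D s ∂μ) / (y * L ^ 2) :=
    div_le_div_of_nonneg_right hm hyL.le
  have h3 : P = (y * L ^ 2 * P) / (y * L ^ 2) := by field_simp
  have h4 : (2 * a * (1 + η)) / (y * L ^ 2) + (y * L ^ 2 * P) / (y * L ^ 2) ≤
      (1 + 3 / L) / (y * L ^ 2) := by
    rw [← add_div]
    exact div_le_div_of_nonneg_right key hyL.le
  rw [← h3] at h4
  linarith

end Pool.Agent.Run7.h681.ER
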