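import Pool.Agent.Run7.h681.ER.Basic
import Pool.Agent.N276.ER.Wald

/-!
# Means
-/

set_option autoImplicit false

open MeasureTheory ProbabilityTheory Filter Topology Set
open scoped ENNReal

namespace Pool.Agent.Run7.h681.ER

open Pool.Agent.N276.ER

theorem prb : StmProb := prob env

theorem wald' : StmWald := wald prb

theorem two_A (n : ℕ) : ∑ i ∈ Finset.range n, (2 * pp i - 1) = 2 * A n := by
  induction n with
  | zero => rw [Finset.sum_range_zero, env.1, mul_zero]
  | succ n ih =>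
    rw [Finset.sum_range_succ, ih]
    unfold pp
    ring

theorem map_neg_SS : SS.map neg = stackLaw (fun i => 1 - pp i) := by
  have hpr : ∀ i, IsProbabilityMeasure (bern (pp i)) := fun i =>
    MeasAux.bern_prob (by linarith [(env.2.2.2.2.2 i).1]) (by linarith [(env.2.2.2.2.2 i).2])
  have h := Measure.infinitePi_map_pi (μ := fun i => bern (pp i)) (f := fun _ : ℕ => (fun b : Bool => !b))
    (fun _ => measurable_of_finite _)
  have h1 : SS.map neg = Measure.infinitePi (fun i => (bern (pp i)).map (fun b : Bool => !b)) := h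
  rw [h1]
  unfold stackLaw
  congr 1
  funext i
  unfold bern
  rw [Measure.map_add _ _ (measurable_of_finite _), Measure.map_smul, Measure.map_smul,
    Measure.map_dirac' (measurable_of_finite _), Measure.map_dirac' (measurable_of_finite _)]
  simp only [Bool.not_true, Bool.not_false]
  rw [add_comm]
  congr 3
  ring

theorem lmean : StmLMean := by
  intro x
  have hb : ∀ i, 49 / 100 ≤ 1 - pp i ∧ 1 - pp i ≤ 51 / 100 := fun i => by
    have := env.2.2.2.2.2 i
    constructor <;> linarith [this.1, this.2]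
  obtain ⟨h1, -, h3⟩ := wald' (fun i => 1 - pp i) hb x
  have hp : IsProbabilityMeasure (stackLaw (fun i => 1 - pp i)) :=
    prb.1 _ fun i => by have := hb i; constructor <;> linarith [this.1, this.2]
  have hm : Measurable (fun s : ℕ → Bool => (U x s : ℝ≥0∞)) :=
    (measurable_of_countable (fun n : ℕ => (n : ℝ≥0∞))).comp (meas.2.1 x)
  have e1 : ∫⁻ s, (U x (neg s) : ℝ≥0∞) ∂SS = ∫⁻ s, (U x s : ℝ≥0∞) ∂(stackLaw (fun i => 1 - pp i)) := by
    rw [← map_neg_SS, lintegral_map hm meas.2.2.1]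
  rw [e1]
  have e2 : ∫⁻ s, (U x s : ℝ≥0∞) ∂(stackLaw (fun i => 1 - pp i)) =
      ENNReal.ofReal (∫ s, (U x s : ℝ) ∂(stackLaw (fun i => 1 - pp i))) := by
    rw [ofReal_integral_eq_lintegral_ofReal h1 (Eventually.of_forall fun s => Nat.cast_nonneg _)]
    simp only [ENNReal.ofReal_natCast]
  rw [e2]
  have e3 : ∫ s, ((U x s : ℝ) - x) ∂(stackLaw (fun i => 1 - pp i)) =
      (∫ s, (U x s : ℝ) ∂(stackLaw (fun i => 1 - pp i))) - x := by
    rw [integral_sub h1 (integrable_const _)]
    simp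
  have e4 : ∫ s, (∑ i ∈ Finset.range (T x s), (2 * (1 - pp i) - 1)) ∂(stackLaw (fun i => 1 - pp i)) ≤ 0 := by
    apply integral_nonpos
    intro s
    have : ∑ i ∈ Finset.range (T x s), (2 * (1 - pp i) - 1) = - (2 * A (T x s)) := by
      rw [← two_A, ← Finset.sum_neg_distrib]
      exact Finset.sum_congr rfl fun i _ => by ring
    simp only [Pi.zero_apply]
    rw [this]
    linarith [(env.2.1 (T x s)).1]
  have e5 : (∫ s, (U x s : ℝ) ∂(stackLaw (fun i => 1 - pp i))) ≤ x := by linarith [h3, e3, e4]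
  refine (ENNReal.ofReal_le_ofReal e5).trans ?_
  simp

/-- `T x ≥ x` almost surely -/
theorem T_ge (x : ℕ) : ∀ᵐ s ∂SS, x ≤ T x s := by
  filter_upwards [inf] with s hs
  have h : ∃ n, x ≤ fails s n := by
    induction x with
    | zero => exact ⟨0, Nat.zero_le _⟩
    | succ x ih =>
      obtain ⟨n, hn⟩ := ih
      obtain ⟨i, hi, hsi⟩ := hs.2 n
      refine ⟨i + 1, ?_⟩
      rw [WaldAux.fails_succ', WaldAux.fN, if_pos hsi]
      have := WaldAux.fails_mono s hi
      omega
  have h1 := WaldAux.fails_T h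
  have h2 := WaldAux.fails_le s (T x s)
  omega

theorem bb : ∀ i, 49 / 100 ≤ pp i ∧ pp i ≤ 51 / 100 := env.2.2.2.2.2

theorem mean_eq (x : ℕ) : ∫ s, ((U x s : ℝ) - x) ∂SS = ∫ s, 2 * A (T x s) ∂SS := by
  rw [(wald' pp bb x).2.2]
  exact integral_congr_ae (Eventually.of_forall fun s => two_A _)

theorem int_A (x : ℕ) : Integrable (fun s => 2 * A (T x s)) SS := by
  have hp : IsProbabilityMeasure SS := prb.2.1
  refine Integrable.of_bound (C := 2) ?_ (Eventually.of_forall fun s => ?_)
  · exact ((measurable_of_countable (fun n : ℕ => 2 * A n)).comp (meas.1 x)).aestronglyMeasurable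
  · rw [Real.norm_eq_abs, abs_of_nonneg (by linarith [(env.2.1 (T x s)).1])]
    linarith [(env.2.1 (T x s)).2]

theorem mean_near {x : ℕ} (hx : 100 ≤ x) :
    |∫ s, ((U x s : ℝ) - x) ∂SS - 1| ≤ 4 / Real.log (x + 2) := by
  have hp : IsProbabilityMeasure SS := prb.2.1
  rw [mean_eq]
  have e : ∫ s, 2 * A (T x s) ∂SS - 1 = ∫ s, (2 * A (T x s) - 1) ∂SS := by
    rw [integral_sub (int_A x) (integrable_const _)]; simp
  rw [e, ← Real.norm_eq_abs]
  refine (norm_integral_le_of_norm_le_const (C := 4 / Real.log (x + 2)) ?_).trans (by simp)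
  filter_upwards [T_ge x] with s hs
  have h100 : 100 ≤ T x s := hx.trans hs
  rw [A_ge h100]
  have h1 := log_ge hx
  have h2 : Real.log (x + 2) ≤ Real.log (T x s + 2) := by
    refine Real.log_le_log (by positivity) ?_
    have : (x : ℝ) ≤ T x s := by exact_mod_cast hs
    linarith
  rw [Real.norm_eq_abs]
  have e2 : 2 * (1 / 2 + 2 / Real.log ((T x s : ℕ) + 2)) - 1 = 4 / Real.log ((T x s : ℕ) + 2) := by
    ring
  rw [e2, abs_of_nonneg (div_nonneg (by norm_num) (by linarith))]
  exact div_le_div_of_nonneg_left (by norm_num) (by linarith) h2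

theorem log_lim : Tendsto (fun x : ℕ => 4 / Real.log ((x : ℝ) + 2)) atTop (𝓝 0) := by
  refine Tendsto.div_atTop tendsto_const_nhds ?_
  exact Real.tendsto_log_atTop.comp (tendsto_atTop_add_const_right _ _ tendsto_natCast_atTop_atTop)

theorem lim (h2 : StmMom2) : StmLim := by
  have hp : IsProbabilityMeasure SS := prb.2.1
  have hm : Tendsto (fun x : ℕ => ∫ s, ((U x s : ℝ) - x) ∂SS) atTop (𝓝 1) := by
    have h : Tendsto (fun x : ℕ => ∫ s, ((U x s : ℝ) - x) ∂SS - 1) atTop (𝓝 0) := by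
      refine squeeze_zero_norm' ?_ log_lim
      filter_upwards [eventually_ge_atTop 100] with x hx
      exact mean_near hx
    simpa using h.add_const 1
  have hinv : Tendsto (fun x : ℕ => ((x : ℝ))⁻¹) atTop (𝓝 0) :=
    tendsto_inv_atTop_zero.comp tendsto_natCast_atTop_atTop
  refine ⟨?_, hm, ?_⟩
  · have h1 : Tendsto (fun x : ℕ => (∫ s, ((U x s : ℝ) - x) ∂SS) * ((x : ℝ))⁻¹ + 1) atTop (𝓝 (1 * 0 + 1)) :=
      (hm.mul hinv).add_const 1
    rw [mul_zero, zero_add] at h1
    refine h1.congr' ?_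
    filter_upwards [eventually_gt_atTop 0] with x hx
    have hx' : (x : ℝ) ≠ 0 := by exact_mod_cast hx.ne'
    have e3 : ∫ s, ((U x s : ℝ) - x) ∂SS = (∫ s, (U x s : ℝ) ∂SS) - x := by
      rw [integral_sub (wald' pp bb x).1 (integrable_const _)]
      simp
    rw [e3]
    field_simp
    ring
  · have h3 : Tendsto (fun x : ℕ => (20 * Real.sqrt x + 100) * ((x : ℝ))⁻¹) atTop (𝓝 0) := by
      have h4 : Tendsto (fun x : ℕ => 20 * (Real.sqrt x)⁻¹ + 100 * ((x : ℝ))⁻¹) atTop (𝓝 (20 * 0 + 100 * 0)) := by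
        refine Tendsto.add (Tendsto.const_mul _ ?_) (hinv.const_mul _)
        exact tendsto_inv_atTop_zero.comp (Real.tendsto_sqrt_atTop.comp tendsto_natCast_atTop_atTop)
      rw [mul_zero, mul_zero, add_zero] at h4
      refine h4.congr' ?_
      filter_upwards [eventually_gt_atTop 0] with x hx
      have hx' : (0 : ℝ) < x := by exact_mod_cast hx
      have hs : Real.sqrt x * Real.sqrt x = x := Real.mul_self_sqrt hx'.le
      have hs0 : 0 < Real.sqrt x := Real.sqrt_pos.2 hx'
      rw [add_mul, mul_assoc]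
      congr 2
      rw [inv_eq_one_div, inv_eq_one_div, mul_one_div, div_eq_div_iff hs0.ne' hx'.ne', one_mul]
      exact hs.symm
    have h4 : Tendsto (fun x : ℕ => (∫ s, ((U x s : ℝ) - x) ^ 2 ∂SS) / x - 2) atTop (𝓝 0) := by
      refine squeeze_zero_norm' ?_ h3
      filter_upwards [eventually_gt_atTop 0] with x hx
      have hx' : (0 : ℝ) < x := by exact_mod_cast hx
      have e : (∫ s, ((U x s : ℝ) - x) ^ 2 ∂SS) / x - 2 =
          (∫ s, ((U x s : ℝ) - x) ^ 2 ∂SS - 2 * x) * ((x : ℝ))⁻¹ := by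
        field_simp
      rw [e, norm_mul, Real.norm_eq_abs, Real.norm_eq_abs, abs_of_pos (inv_pos.2 hx')]
      exact mul_le_mul_of_nonneg_right (h2 x) (inv_pos.2 hx').le
    simpa using h4.add_const 2

end Pool.Agent.Run7.h681.ER
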